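import Pool.Agent.Lib.MP_89e789_an.Defs

open Matrix

namespace Pool.Agent.Lib.MP_89e789_an

section basic
variable {n k : ℕ}

open scoped ENNReal NNReal in
lemma spectralRadius_ne_top (A : Matrix (Fin n) (Fin n) ℝ) : spectralRadius ℝ A ≠ ⊤ := by
  obtain ⟨M, hM⟩ := ((Matrix.finite_real_spectrum (A := A)).image (fun k : ℝ => ‖k‖₊)).bddAbove
  have : spectralRadius ℝ A ≤ (M : ℝ≥0∞) := by
    unfold spectralRadius
    refine iSup₂_le fun k hk => ?_
    exact_mod_cast hM ⟨k, hk, rfl⟩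
  exact ne_top_of_le_ne_top ENNReal.coe_ne_top this

open scoped ENNReal NNReal in
lemma abs_le_rho_of_mem {A : Matrix (Fin n) (Fin n) ℝ} {x : ℝ} (hx : x ∈ spectrum ℝ A) :
    |x| ≤ rho A := by
  have h1 : (‖x‖₊ : ℝ≥0∞) ≤ spectralRadius ℝ A := by
    unfold spectralRadius
    exact le_iSup₂ (α := ℝ≥0∞) (f := fun (k : ℝ) (_ : k ∈ spectrum ℝ A) => (‖k‖₊ : ℝ≥0∞)) x hx
  have h2 := ENNReal.toReal_mono (spectralRadius_ne_top A) h1
  simpa [rho] using h2

lemma posSemidef_rho_sub {A : Matrix (Fin n) (Fin n) ℝ} (hA : A.IsHermitian) :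
    (rho A • (1 : Matrix (Fin n) (Fin n) ℝ) - A).PosSemidef := by
  set U : Matrix (Fin n) (Fin n) ℝ := (hA.eigenvectorUnitary : Matrix (Fin n) (Fin n) ℝ) with hU
  have hUU : U * Uᴴ = 1 := Unitary.coe_mul_star_self hA.eigenvectorUnitary
  have hspec : A = U * diagonal hA.eigenvalues * Uᴴ := by
    conv_lhs => rw [hA.spectral_theorem]
    rfl
  have h1 : rho A • (1 : Matrix (Fin n) (Fin n) ℝ) - A =
      U * diagonal (fun i => rho A - hA.eigenvalues i) * Uᴴ := by
    have h2 : diagonal (fun i => rho A - hA.eigenvalues i) =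
        rho A • (1 : Matrix (Fin n) (Fin n) ℝ) - diagonal hA.eigenvalues := by
      ext i j
      by_cases hij : i = j
      · subst hij; simp
      · simp [hij]
    rw [h2, mul_sub, sub_mul, ← hspec, mul_smul_comm, mul_one, smul_mul_assoc, hUU]
  rw [h1]
  refine (Matrix.PosSemidef.diagonal (fun i => ?_)).mul_mul_conjTranspose_same U
  have := abs_le_rho_of_mem (hA.eigenvalues_mem_spectrum_real i)
  simp only [Pi.zero_apply, sub_nonneg]
  exact le_trans (le_abs_self _) this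

lemma dot_mulVec_le_rho {A : Matrix (Fin n) (Fin n) ℝ} (hA : A.IsHermitian) (w : Fin n → ℝ) :
    w ⬝ᵥ (A *ᵥ w) ≤ rho A * (w ⬝ᵥ w) := by
  have h := (posSemidef_rho_sub hA).dotProduct_mulVec_nonneg w
  simp only [star_trivial, sub_mulVec, smul_mulVec, one_mulVec, dotProduct_sub,
    dotProduct_smul, smul_eq_mul] at h
  linarith

lemma dot_self_nonneg (w : Fin n → ℝ) : 0 ≤ w ⬝ᵥ w := by
  simpa using dotProduct_star_self_nonneg w

lemma dot_self_pos {w : Fin n → ℝ} (hw : w ≠ 0) : 0 < w ⬝ᵥ w := by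
  rcases (dot_self_nonneg w).lt_or_eq with h | h
  · exact h
  · exact absurd (dotProduct_self_eq_zero.mp h.symm) hw

lemma rho_nonneg (A : Matrix (Fin n) (Fin n) ℝ) : 0 ≤ rho A := ENNReal.toReal_nonneg

/-! ### the energy inner product -/

lemma ei_add_left (A : Matrix (Fin n) (Fin n) ℝ) (u v w : Fin n → ℝ) :
    energyInner A (u + v) w = energyInner A u w + energyInner A v w := by
  simp [energyInner, add_dotProduct]

lemma ei_add_right (A : Matrix (Fin n) (Fin n) ℝ) (u v w : Fin n → ℝ) :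
    energyInner A u (v + w) = energyInner A u v + energyInner A u w := by
  simp [energyInner, mulVec_add, dotProduct_add]

lemma ei_sub_left (A : Matrix (Fin n) (Fin n) ℝ) (u v w : Fin n → ℝ) :
    energyInner A (u - v) w = energyInner A u w - energyInner A v w := by
  simp [energyInner, sub_dotProduct]

lemma ei_sub_right (A : Matrix (Fin n) (Fin n) ℝ) (u v w : Fin n → ℝ) :
    energyInner A u (v - w) = energyInner A u v - energyInner A u w := by
  simp [energyInner, mulVec_sub, dotProduct_sub]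

lemma ei_smul_left (A : Matrix (Fin n) (Fin n) ℝ) (c : ℝ) (u v : Fin n → ℝ) :
    energyInner A (c • u) v = c * energyInner A u v := by
  simp [energyInner]

lemma ei_smul_right (A : Matrix (Fin n) (Fin n) ℝ) (c : ℝ) (u v : Fin n → ℝ) :
    energyInner A u (c • v) = c * energyInner A u v := by
  simp [energyInner, mulVec_smul]

lemma ei_symm {A : Matrix (Fin n) (Fin n) ℝ} (hA : A.IsHermitian) (u v : Fin n → ℝ) :
    energyInner A u v = energyInner A v u := by
  have hT : Aᵀ = A := by simpa [IsHermitian, conjTranspose_eq_transpose_of_trivial] using hA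
  unfold energyInner
  rw [dotProduct_mulVec, ← mulVec_transpose, hT, dotProduct_comm]

lemma ei_nonneg {A : Matrix (Fin n) (Fin n) ℝ} (hA : A.PosDef) (u : Fin n → ℝ) :
    0 ≤ energyInner A u u := by
  simpa [energyInner] using hA.posSemidef.dotProduct_mulVec_nonneg u

lemma ei_pos {A : Matrix (Fin n) (Fin n) ℝ} (hA : A.PosDef) {u : Fin n → ℝ} (hu : u ≠ 0) :
    0 < energyInner A u u := by
  simpa [energyInner] using hA.dotProduct_mulVec_pos hu

lemma energyNorm_sq {A : Matrix (Fin n) (Fin n) ℝ} (hA : A.PosDef) (u : Fin n → ℝ) :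
    energyNorm A u ^ 2 = energyInner A u u := Real.sq_sqrt (ei_nonneg hA u)

lemma energyNorm_nonneg (A : Matrix (Fin n) (Fin n) ℝ) (u : Fin n → ℝ) : 0 ≤ energyNorm A u :=
  Real.sqrt_nonneg _

lemma euclNorm_sq (u : Fin n → ℝ) : euclNorm u ^ 2 = u ⬝ᵥ u := Real.sq_sqrt (dot_self_nonneg u)

lemma euclNorm_nonneg (u : Fin n → ℝ) : 0 ≤ euclNorm u := Real.sqrt_nonneg _

/-- Cauchy-Schwarz in the energy inner product (squared form). -/
lemma ei_cs {A : Matrix (Fin n) (Fin n) ℝ} (hA : A.PosDef) (u v : Fin n → ℝ) :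
    energyInner A u v ^ 2 ≤ energyInner A u u * energyInner A v v := by
  by_cases hv : v = 0
  · subst hv
    simp [energyInner]
  · have hpos := ei_pos hA hv
    have h := ei_nonneg hA (energyInner A v v • u - energyInner A u v • v)
    have hs := ei_symm hA.isHermitian v u
    simp only [ei_sub_left, ei_sub_right, ei_smul_left, ei_smul_right, hs] at h
    have h2 : 0 ≤ energyInner A v v * (energyInner A u u * energyInner A v v -
        energyInner A u v ^ 2) := by nlinarith [h]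
    have h3 := nonneg_of_mul_nonneg_right h2 hpos
    linarith

lemma ei_abs_le {A : Matrix (Fin n) (Fin n) ℝ} (hA : A.PosDef) (u v : Fin n → ℝ) :
    |energyInner A u v| ≤ energyNorm A u * energyNorm A v := by
  apply abs_le_of_sq_le_sq _ (mul_nonneg (energyNorm_nonneg _ _) (energyNorm_nonneg _ _))
  rw [mul_pow, energyNorm_sq hA, energyNorm_sq hA]
  exact ei_cs hA u v

/-- `‖A w‖² ≤ ρ(A) ‖w‖_A²`. -/
lemma dot_mulVec_self_le {A : Matrix (Fin n) (Fin n) ℝ} (hA : A.PosDef) (w : Fin n → ℝ) :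
    (A *ᵥ w) ⬝ᵥ (A *ᵥ w) ≤ rho A * energyInner A w w := by
  have h1 : (A *ᵥ w) ⬝ᵥ (A *ᵥ w) = energyInner A (A *ᵥ w) w := rfl
  have h2 := ei_cs hA (A *ᵥ w) w
  have h3 : energyInner A (A *ᵥ w) (A *ᵥ w) ≤ rho A * ((A *ᵥ w) ⬝ᵥ (A *ᵥ w)) :=
    dot_mulVec_le_rho hA.isHermitian _
  have hw := ei_nonneg hA w
  rw [← h1] at h2
  by_cases h0 : (A *ᵥ w) ⬝ᵥ (A *ᵥ w) = 0
  · rw [h0]; exact mul_nonneg (rho_nonneg A) hw
  · have hpos : 0 < (A *ᵥ w) ⬝ᵥ (A *ᵥ w) := lt_of_le_of_ne (dot_self_nonneg _) (Ne.symm h0)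
    have h4 : ((A *ᵥ w) ⬝ᵥ (A *ᵥ w)) * ((A *ᵥ w) ⬝ᵥ (A *ᵥ w)) ≤
        ((A *ᵥ w) ⬝ᵥ (A *ᵥ w)) * (rho A * energyInner A w w) := by
      calc ((A *ᵥ w) ⬝ᵥ (A *ᵥ w)) * ((A *ᵥ w) ⬝ᵥ (A *ᵥ w))
          = ((A *ᵥ w) ⬝ᵥ (A *ᵥ w)) ^ 2 := by ring
        _ ≤ energyInner A (A *ᵥ w) (A *ᵥ w) * energyInner A w w := h2
        _ ≤ rho A * ((A *ᵥ w) ⬝ᵥ (A *ᵥ w)) * energyInner A w w :=
            mul_le_mul_of_nonneg_right h3 hw
        _ = _ := by ring
    exact le_of_mul_le_mul_left h4 hpos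

lemma rho_pos {A : Matrix (Fin n) (Fin n) ℝ} (hA : A.PosDef) (hn : 0 < n) : 0 < rho A := by
  have : (fun _ : Fin n => (1 : ℝ)) ≠ 0 := by
    intro h
    have := congrFun h ⟨0, hn⟩
    simp at this
  have h1 := ei_pos hA this
  have h2 : energyInner A (fun _ : Fin n => (1 : ℝ)) (fun _ : Fin n => (1 : ℝ)) ≤
    rho A * ((fun _ : Fin n => (1 : ℝ)) ⬝ᵥ (fun _ : Fin n => (1 : ℝ))) :=
    dot_mulVec_le_rho hA.isHermitian _
  by_contra hcon
  have h3 : rho A = 0 := le_antisymm (not_lt.mp hcon) (rho_nonneg A)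
  rw [h3, zero_mul] at h2
  linarith

/-! ### Triangle inequality for the Euclidean norm -/

lemma euclNorm_eq_norm (v : Fin n → ℝ) :
    euclNorm v = ‖(WithLp.toLp 2 v : EuclideanSpace ℝ (Fin n))‖ := by
  rw [EuclideanSpace.norm_eq]
  unfold euclNorm
  congr 1
  simp [dotProduct, sq]

lemma euclNorm_add_le (u v : Fin n → ℝ) : euclNorm (u + v) ≤ euclNorm u + euclNorm v := by
  simp only [euclNorm_eq_norm]
  exact norm_add_le (WithLp.toLp 2 u : EuclideanSpace ℝ (Fin n)) (WithLp.toLp 2 v)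

lemma euclNorm_smul (c : ℝ) (v : Fin n → ℝ) : euclNorm (c • v) = |c| * euclNorm v := by
  simp only [euclNorm_eq_norm]
  exact norm_smul c (WithLp.toLp 2 v : EuclideanSpace ℝ (Fin n))

end basic

end Pool.Agent.Lib.MP_89e789_an
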