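import Pool.Agent.Lib.MP_89e789_an.Level

open Matrix

namespace Pool.Agent.Lib.MP_89e789_an

namespace Hierarchy

lemma levelPair {H : Hierarchy} {L : ℕ} (h1 : H.IsHierarchy L) (h2 : H.G3 L) :
    ∃ r : ℝ, ∀ l < L, LevelPair (H.A (l + 1)) (H.A l) (H.P l) (H.R l) r := by
  obtain ⟨r, hr0, -, hr⟩ := h2
  refine ⟨r, fun l hl => ⟨(h1.2.1 (l + 1) hl).2, (h1.2.1 l hl.le).2, hr0, (hr l hl).1, (hr l hl).2⟩⟩

/-- If `|⟨(I - PΠ)v, v⟩_A| ρ(A) ≤ G ‖Av‖²` on all levels, then `3 G CR ≤ m` smoothing steps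
suffice for contraction. -/
theorem form_bound {H : Hierarchy} {L : ℕ} {CR G : ℝ} {m : ℕ} (h1 : H.IsHierarchy L)
    (h2 : H.G3 L) (h3 : H.CondR L CR)
    (hform : ∀ l < L, ∀ v : Fin (H.n (l + 1)) → ℝ,
      |energyInner (H.A (l + 1)) ((1 - H.P l * H.Pr l) *ᵥ v) v| * rho (H.A (l + 1)) ≤
        G * ((H.A (l + 1) *ᵥ v) ⬝ᵥ (H.A (l + 1) *ᵥ v)))
    (hG : 0 ≤ G) (hm : 3 * G * CR ≤ m) :
    ∀ l ≤ L, (∀ u v : Fin (H.n l) → ℝ,
        energyInner (H.A l) (H.E m 1 l *ᵥ u) v = energyInner (H.A l) u (H.E m 1 l *ᵥ v)) ∧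
      ∀ v : Fin (H.n l) → ℝ, |energyInner (H.A l) (H.E m 1 l *ᵥ v) v| ≤
        (1 / 2) * energyInner (H.A l) v v := by
  obtain ⟨r, hr⟩ := levelPair h1 h2
  intro l
  induction l with
  | zero =>
    intro _
    have hE : H.E m 1 0 = 0 := rfl
    rw [hE]
    refine ⟨fun u v => by simp [energyInner], fun v => ?_⟩
    have := ei_nonneg (h1.2.1 0 (Nat.zero_le _)).2 v
    simp only [zero_mulVec]
    simp only [energyInner, zero_dotProduct, abs_zero] at this ⊢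
    linarith
  | succ l ih =>
    intro hl
    obtain ⟨ihs, ihb⟩ := ih (Nat.le_of_succ_le hl)
    have hlp := hr l hl
    have hPD := hlp.hA
    have hn : 0 < H.n (l + 1) := (h1.2.1 (l + 1) hl).1
    have hρ : 0 < rho (H.A (l + 1)) := rho_pos hPD hn
    have hR1 := (h3 l hl).1
    have hR2 := (h3 l hl).2
    have hlam : 0 < H.Lam (l + 1) := lt_of_lt_of_le hρ hR1
    have hE : H.E m 1 (l + 1) = (1 - (H.Lam (l + 1))⁻¹ • H.A (l + 1)) ^ m *
        (1 - H.P l * (1 - H.E m 1 l) * ((H.A l)⁻¹ * H.R l * H.A (l + 1))) *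
        (1 - (H.Lam (l + 1))⁻¹ • H.A (l + 1)) ^ m := by
      show H.K (l + 1) ^ m * (1 - H.P l * (1 - H.E m 1 l ^ 1) * H.Pr l) * H.K (l + 1) ^ m = _
      rw [pow_one]; rfl
    have eE : ∀ u : Fin (H.n (l + 1)) → ℝ, H.E m 1 (l + 1) *ᵥ u =
        (1 - (H.Lam (l + 1))⁻¹ • H.A (l + 1)) ^ m *ᵥ
        ((1 - H.P l * (1 - H.E m 1 l) * ((H.A l)⁻¹ * H.R l * H.A (l + 1))) *ᵥ
        ((1 - (H.Lam (l + 1))⁻¹ • H.A (l + 1)) ^ m *ᵥ u)) := by
      intro u
      rw [hE, ← mulVec_mulVec, ← mulVec_mulVec]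
    refine ⟨fun u v => ?_, fun v => ?_⟩
    · rw [eE, eE, Kpow_symm hPD, hlp.Y_symm ihs, Kpow_symm hPD]
    · rw [eE, Kpow_symm hPD]
      set w := (1 - (H.Lam (l + 1))⁻¹ • H.A (l + 1)) ^ m *ᵥ v with hw
      have hY := hlp.Y_bound ihb w
      have hS : |energyInner (H.A (l + 1)) ((1 - H.P l * ((H.A l)⁻¹ * H.R l * H.A (l + 1))) *ᵥ w)
          w| * rho (H.A (l + 1)) ≤ G * ((H.A (l + 1) *ᵥ w) ⬝ᵥ (H.A (l + 1) *ᵥ w)) :=
        hform l hl w
      have hsm := smoothing hPD hR1 hlam m v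
      rw [← hw] at hsm
      set g := (H.A (l + 1) *ᵥ w) ⬝ᵥ (H.A (l + 1) *ᵥ w) with hg
      have hg0 : 0 ≤ g := dot_self_nonneg _
      set σ := |energyInner (H.A (l + 1)) ((1 - H.P l * ((H.A l)⁻¹ * H.R l * H.A (l + 1))) *ᵥ w)
          w| with hσ
      have hσ2 : 3 * σ ≤ m * (H.Lam (l + 1))⁻¹ * g := by
        have a1 : σ ≤ G * g / rho (H.A (l + 1)) := by
          rw [le_div_iff₀ hρ]; exact hS
        have a2 : 3 * (G * g / rho (H.A (l + 1))) ≤ m * (H.Lam (l + 1))⁻¹ * g := by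
          rw [mul_div_assoc', div_le_iff₀ hρ]
          have a3 : (H.Lam (l + 1))⁻¹ * (CR * rho (H.A (l + 1))) ≥ 1 := by
            rw [ge_iff_le, ← div_eq_inv_mul, one_le_div hlam]
            exact hR2
          have a4 : 3 * G * g ≤ (3 * G * CR) * ((H.Lam (l + 1))⁻¹ * rho (H.A (l + 1))) * g := by
            have : 3 * G * CR * ((H.Lam (l + 1))⁻¹ * rho (H.A (l + 1))) =
              3 * G * ((H.Lam (l + 1))⁻¹ * (CR * rho (H.A (l + 1)))) := by ring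
            rw [this]
            apply mul_le_mul_of_nonneg_right _ hg0
            have : 3 * G * 1 ≤ 3 * G * ((H.Lam (l + 1))⁻¹ * (CR * rho (H.A (l + 1)))) :=
              mul_le_mul_of_nonneg_left a3 (by positivity)
            linarith
          have a5 : (3 * G * CR) * ((H.Lam (l + 1))⁻¹ * rho (H.A (l + 1))) * g ≤
              m * ((H.Lam (l + 1))⁻¹ * rho (H.A (l + 1))) * g := by
            apply mul_le_mul_of_nonneg_right _ hg0
            apply mul_le_mul_of_nonneg_right hm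
            have := inv_pos.mpr hlam
            positivity
          calc 3 * (G * g) = 3 * G * g := by ring
            _ ≤ _ := a4
            _ ≤ _ := a5
            _ = _ := by ring
        linarith
      linarith

theorem contraction {H : Hierarchy} {L : ℕ} {CR G : ℝ} {m : ℕ} (h1 : H.IsHierarchy L)
    (h2 : H.G3 L) (h3 : H.CondR L CR)
    (hform : ∀ l < L, ∀ v : Fin (H.n (l + 1)) → ℝ,
      |energyInner (H.A (l + 1)) ((1 - H.P l * H.Pr l) *ᵥ v) v| * rho (H.A (l + 1)) ≤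
        G * ((H.A (l + 1) *ᵥ v) ⬝ᵥ (H.A (l + 1) *ᵥ v)))
    (hG : 0 ≤ G) (hm : 3 * G * CR ≤ m) (v : Fin (H.n L) → ℝ) :
    energyNorm (H.A L) (H.E m 1 L *ᵥ v) ≤ (1 / 2) * energyNorm (H.A L) v := by
  obtain ⟨hs, hb⟩ := form_bound h1 h2 h3 hform hG hm L le_rfl
  exact norm_le_of_form (h1.2.1 L le_rfl).2 hs hb v

end Hierarchy

/-- Under `(A2)_α` and the numerical condition `hφ`, `‖Av‖² ≥ ε² ρ(A) ‖v‖_A²`. -/
lemma lower_bound {n k : ℕ} {A : Matrix (Fin n) (Fin n) ℝ} {B : Matrix (Fin k) (Fin k) ℝ}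
    {P : Matrix (Fin n) (Fin k) ℝ} {R : Matrix (Fin k) (Fin n) ℝ} {r : ℝ}
    (h : LevelPair A B P R r) (hρ : 0 < rho A) {C α ε t : ℝ} (hα0 : 0 < α) (hα1 : α ≤ 1)
    (hC : 0 < C) (hε : 0 < ε) (ht : 0 < t)
    (hA2 : ∀ v, |energyInner A ((1 - P * (B⁻¹ * R * A)) *ᵥ v) v| ≤
      C ^ (2 * α) / rho A ^ α * euclNorm (A *ᵥ v) ^ (2 * α) * energyNorm A v ^ (2 * (1 - α)))
    (hφ : (1 + t ^ 2) * (C ^ (2 * α) * ε ^ (2 * α)) + C ^ (2 * α) * (ε + t) ^ (2 * α) *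
      (Real.sqrt (1 + t ^ 2 + 2 * t * (C ^ (2 * α) * ε ^ (2 * α)))) ^ (2 * (1 - α)) < 2 * t)
    (v : Fin n → ℝ) :
    ε ^ 2 * rho A * energyInner A v v ≤ (A *ᵥ v) ⬝ᵥ (A *ᵥ v) := by
  by_contra hcon
  push Not at hcon
  set c := C ^ (2 * α) with hc
  have hcpos : 0 < c := Real.rpow_pos_of_pos hC _
  set N := energyNorm A v with hN
  have hN2 : N ^ 2 = energyInner A v v := energyNorm_sq h.hA v
  have hN0 : 0 ≤ N := energyNorm_nonneg _ _
  have hNpos : 0 < N := by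
    rcases hN0.lt_or_eq with h' | h'
    · exact h'
    · exfalso
      rw [← hN2, ← h'] at hcon
      have := dot_self_nonneg (A *ᵥ v)
      simp at hcon
      linarith
  set s := Real.sqrt (rho A) with hs
  have hspos : 0 < s := Real.sqrt_pos.mpr hρ
  have hs2 : s ^ 2 = rho A := Real.sq_sqrt hρ.le
  have hsα : rho A ^ α = s ^ (2 * α) := by
    rw [← hs2, ← Real.rpow_natCast, ← Real.rpow_mul hspos.le]
    norm_num
  set D := c * ε ^ (2 * α) with hD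
  have hDpos : 0 < D := mul_pos hcpos (Real.rpow_pos_of_pos hε _)
  -- bound on `‖A v‖`
  have ha : euclNorm (A *ᵥ v) ≤ ε * s * N := by
    apply le_of_sq_le_sq _ (by positivity)
    rw [euclNorm_sq, mul_pow, mul_pow, hs2, hN2]
    exact hcon.le
  -- (A2) for a vector `u` with `‖Au‖ ≤ x s N`, `‖u‖_A ≤ y N`
  have gen : ∀ (u : Fin n → ℝ) (x y : ℝ), 0 ≤ x → 0 ≤ y → euclNorm (A *ᵥ u) ≤ x * s * N →
      energyNorm A u ≤ y * N →
      |energyInner A ((1 - P * (B⁻¹ * R * A)) *ᵥ u) u| ≤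
        c * x ^ (2 * α) * y ^ (2 * (1 - α)) * N ^ 2 := by
    intro u x y hx hy hu1 hu2
    have b1 : euclNorm (A *ᵥ u) ^ (2 * α) ≤ (x * s * N) ^ (2 * α) :=
      Real.rpow_le_rpow (euclNorm_nonneg _) hu1 (by positivity)
    have b2 : energyNorm A u ^ (2 * (1 - α)) ≤ (y * N) ^ (2 * (1 - α)) :=
      Real.rpow_le_rpow (energyNorm_nonneg _ _) hu2 (by linarith)
    have b3 : 0 ≤ c / rho A ^ α := div_nonneg hcpos.le (Real.rpow_nonneg hρ.le _)
    calc _ ≤ c / rho A ^ α * euclNorm (A *ᵥ u) ^ (2 * α) * energyNorm A u ^ (2 * (1 - α)) := hA2 u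
      _ ≤ c / rho A ^ α * (x * s * N) ^ (2 * α) * (y * N) ^ (2 * (1 - α)) := by
          apply mul_le_mul (mul_le_mul_of_nonneg_left b1 b3) b2
            (Real.rpow_nonneg (energyNorm_nonneg _ _) _)
          exact mul_nonneg b3 (Real.rpow_nonneg (by positivity) _)
      _ = c * x ^ (2 * α) * y ^ (2 * (1 - α)) * (N ^ (2 * α) * N ^ (2 * (1 - α))) := by
          rw [Real.mul_rpow (by positivity) hN0, Real.mul_rpow hx hspos.le,
            Real.mul_rpow hy hN0, hsα]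
          have : s ^ (2 * α) ≠ 0 := (Real.rpow_pos_of_pos hspos _).ne'
          field_simp
      _ = _ := by
          rw [← Real.rpow_add hNpos]
          have : 2 * α + 2 * (1 - α) = ((2 : ℕ) : ℝ) := by push_cast; ring
          rw [this, Real.rpow_natCast]
  set σ := energyInner A ((1 - P * (B⁻¹ * R * A)) *ᵥ v) v with hσ
  have h1 : |σ| ≤ D * N ^ 2 := by
    have := gen v ε 1 hε.le zero_le_one ha (by rw [one_mul])
    simpa [hD] using this
  set w := (1 - P * (B⁻¹ * R * A)) *ᵥ v with hw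
  set u := v + t • w with hu
  have hww : energyInner A w w = N ^ 2 := by rw [hw, h.S_isom, hN2]
  have hwv : energyInner A w v = σ := hσ.symm ▸ rfl
  have hvw : energyInner A v w = σ := by rw [ei_symm h.hA.isHermitian, hwv]
  have hSw : (1 - P * (B⁻¹ * R * A)) *ᵥ w = v := by rw [hw, h.S_sq]
  have hSu : energyInner A ((1 - P * (B⁻¹ * R * A)) *ᵥ u) u = (1 + t ^ 2) * σ + 2 * t * N ^ 2 := by
    rw [hu, mulVec_add, mulVec_smul, hSw, ← hw, ei_add_left, ei_add_right, ei_add_right,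
      ei_smul_left, ei_smul_left, ei_smul_right, ei_smul_right, hww, hwv, hvw, ← hN2]
    ring
  have huu : energyInner A u u = (1 + t ^ 2) * N ^ 2 + 2 * t * σ := by
    rw [hu, ei_add_left, ei_add_right, ei_add_right, ei_smul_left, ei_smul_left, ei_smul_right,
      ei_smul_right, hww, hwv, hvw, ← hN2]
    ring
  have hAu : euclNorm (A *ᵥ u) ≤ (ε + t) * s * N := by
    have e1 : A *ᵥ u = A *ᵥ v + t • (A *ᵥ w) := by rw [hu, mulVec_add, mulVec_smul]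
    have e2 : euclNorm (A *ᵥ w) ≤ s * N := by
      apply le_of_sq_le_sq _ (by positivity)
      rw [euclNorm_sq, mul_pow, hs2, ← hww]
      exact dot_mulVec_self_le h.hA w
    rw [e1]
    calc euclNorm (A *ᵥ v + t • (A *ᵥ w)) ≤ euclNorm (A *ᵥ v) + euclNorm (t • (A *ᵥ w)) :=
          euclNorm_add_le _ _
      _ ≤ ε * s * N + t * (s * N) := by
          rw [euclNorm_smul, abs_of_pos ht]
          exact add_le_add ha (mul_le_mul_of_nonneg_left e2 ht.le)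
      _ = _ := by ring
  have hun : energyNorm A u ≤ Real.sqrt (1 + t ^ 2 + 2 * t * D) * N := by
    apply le_of_sq_le_sq _ (by positivity)
    rw [energyNorm_sq h.hA, huu, mul_pow, Real.sq_sqrt (by positivity)]
    have := (abs_le.mp h1).2
    have : 2 * t * σ ≤ 2 * t * (D * N ^ 2) := mul_le_mul_of_nonneg_left this (by positivity)
    nlinarith
  have h2 := gen u (ε + t) (Real.sqrt (1 + t ^ 2 + 2 * t * D)) (by positivity) (Real.sqrt_nonneg _)
    hAu hun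
  rw [hSu] at h2
  have h3 := (abs_le.mp h2).2
  have h4 : -(D * N ^ 2) ≤ σ := (abs_le.mp h1).1
  have h5 : (1 + t ^ 2) * -(D * N ^ 2) ≤ (1 + t ^ 2) * σ :=
    mul_le_mul_of_nonneg_left h4 (by positivity)
  have h6 : 2 * t * N ^ 2 ≤ ((1 + t ^ 2) * D + c * (ε + t) ^ (2 * α) *
      Real.sqrt (1 + t ^ 2 + 2 * t * D) ^ (2 * (1 - α))) * N ^ 2 := by nlinarith
  have h7 : ((1 + t ^ 2) * D + c * (ε + t) ^ (2 * α) *
      Real.sqrt (1 + t ^ 2 + 2 * t * D) ^ (2 * (1 - α))) * N ^ 2 < 2 * t * N ^ 2 :=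
    mul_lt_mul_of_pos_right hφ (by positivity)
  linarith

/-- From the lower bound, `(A2)_α` improves to a linear form bound. -/
lemma form_of_lower {n k : ℕ} {A : Matrix (Fin n) (Fin n) ℝ} {B : Matrix (Fin k) (Fin k) ℝ}
    {P : Matrix (Fin n) (Fin k) ℝ} {R : Matrix (Fin k) (Fin n) ℝ} {r : ℝ}
    (h : LevelPair A B P R r) (hρ : 0 < rho A) {C α ε : ℝ} (hα0 : 0 < α) (hα1 : α ≤ 1)
    (hC : 0 < C) (hε : 0 < ε)
    (hA2 : ∀ v, |energyInner A ((1 - P * (B⁻¹ * R * A)) *ᵥ v) v| ≤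
      C ^ (2 * α) / rho A ^ α * euclNorm (A *ᵥ v) ^ (2 * α) * energyNorm A v ^ (2 * (1 - α)))
    (hlow : ∀ v, ε ^ 2 * rho A * energyInner A v v ≤ (A *ᵥ v) ⬝ᵥ (A *ᵥ v))
    (v : Fin n → ℝ) :
    |energyInner A ((1 - P * (B⁻¹ * R * A)) *ᵥ v) v| * rho A ≤
      C ^ (2 * α) / ε ^ (2 * (1 - α)) * ((A *ᵥ v) ⬝ᵥ (A *ᵥ v)) := by
  set c := C ^ (2 * α) with hc
  have hcpos : 0 < c := Real.rpow_pos_of_pos hC _
  set a := euclNorm (A *ᵥ v) with ha
  have ha0 : 0 ≤ a := euclNorm_nonneg _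
  have ha2 : a ^ 2 = (A *ᵥ v) ⬝ᵥ (A *ᵥ v) := euclNorm_sq _
  set s := Real.sqrt (rho A) with hs
  have hspos : 0 < s := Real.sqrt_pos.mpr hρ
  have hs2 : s ^ 2 = rho A := Real.sq_sqrt hρ.le
  have hsα : rho A ^ α = s ^ (2 * α) := by
    rw [← hs2, ← Real.rpow_natCast, ← Real.rpow_mul hspos.le]
    norm_num
  have h1 : energyNorm A v ≤ a / (ε * s) := by
    rw [le_div_iff₀ (by positivity)]
    apply le_of_sq_le_sq _ ha0
    rw [mul_pow, mul_pow, hs2, energyNorm_sq h.hA, ha2]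
    have := hlow v
    linarith
  have h2 : energyNorm A v ^ (2 * (1 - α)) ≤ (a / (ε * s)) ^ (2 * (1 - α)) :=
    Real.rpow_le_rpow (energyNorm_nonneg _ _) h1 (by linarith)
  have h3 : 0 ≤ c / rho A ^ α * a ^ (2 * α) :=
    mul_nonneg (div_nonneg hcpos.le (Real.rpow_nonneg hρ.le _)) (Real.rpow_nonneg ha0 _)
  have hsum : a ^ (2 * α) * a ^ (2 * (1 - α)) = a ^ 2 := by
    rw [← Real.rpow_add_of_nonneg ha0 (by positivity) (by linarith)]
    have : 2 * α + 2 * (1 - α) = ((2 : ℕ) : ℝ) := by push_cast; ring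
    rw [this, Real.rpow_natCast]
  have hssum : s ^ (2 * α) * s ^ (2 * (1 - α)) = rho A := by
    rw [← Real.rpow_add hspos]
    have : 2 * α + 2 * (1 - α) = ((2 : ℕ) : ℝ) := by push_cast; ring
    rw [this, Real.rpow_natCast, hs2]
  calc |energyInner A ((1 - P * (B⁻¹ * R * A)) *ᵥ v) v| * rho A
      ≤ (c / rho A ^ α * a ^ (2 * α) * energyNorm A v ^ (2 * (1 - α))) * rho A :=
        mul_le_mul_of_nonneg_right (hA2 v) hρ.le
    _ ≤ (c / rho A ^ α * a ^ (2 * α) * (a / (ε * s)) ^ (2 * (1 - α))) * rho A :=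
        mul_le_mul_of_nonneg_right (mul_le_mul_of_nonneg_left h2 h3) hρ.le
    _ = c / ε ^ (2 * (1 - α)) * (a ^ (2 * α) * a ^ (2 * (1 - α))) *
        (rho A / (s ^ (2 * α) * s ^ (2 * (1 - α)))) := by
        rw [Real.div_rpow ha0 (by positivity), Real.mul_rpow hε.le hspos.le, hsα]
        have e1 : s ^ (2 * α) ≠ 0 := (Real.rpow_pos_of_pos hspos _).ne'
        have e2 : s ^ (2 * (1 - α)) ≠ 0 := (Real.rpow_pos_of_pos hspos _).ne'
        have e3 : ε ^ (2 * (1 - α)) ≠ 0 := (Real.rpow_pos_of_pos hε _).ne'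
        field_simp
    _ = _ := by rw [hsum, hssum, div_self hρ.ne', ha2]; ring

end Pool.Agent.Lib.MP_89e789_an
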