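import Mathlib

/-!
# Multigrid hierarchies with an over-correcting coarse level (definitions)
-/

open Matrix

namespace Pool.Agent.Lib.MP_89e789_an

/-- The data of a multigrid hierarchy: level sizes `n l`, matrices `A l`, prolongations `P l` from
level `l` to level `l + 1`, restrictions `R l` from level `l + 1` to level `l`, and Richardson
parameters `Lam l`. A hierarchy of depth `L` only uses the levels `0, ..., L`. -/
structure Hierarchy where
  n : ℕ → ℕ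
  A : (l : ℕ) → Matrix (Fin (n l)) (Fin (n l)) ℝ
  P : (l : ℕ) → Matrix (Fin (n (l + 1))) (Fin (n l)) ℝ
  R : (l : ℕ) → Matrix (Fin (n l)) (Fin (n (l + 1))) ℝ
  Lam : ℕ → ℝ

/-- Euclidean norm on `ℝⁿ`. -/
noncomputable def euclNorm {n : ℕ} (v : Fin n → ℝ) : ℝ := Real.sqrt (v ⬝ᵥ v)

/-- The energy inner product `⟨u, v⟩_A = uᵀ A v`. -/
noncomputable def energyInner {n : ℕ} (A : Matrix (Fin n) (Fin n) ℝ) (u v : Fin n → ℝ) : ℝ :=
  u ⬝ᵥ (A *ᵥ v)

/-- The energy norm `‖v‖_A = (vᵀ A v)^{1/2}`. -/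
noncomputable def energyNorm {n : ℕ} (A : Matrix (Fin n) (Fin n) ℝ) (v : Fin n → ℝ) : ℝ :=
  Real.sqrt (energyInner A v v)

/-- The spectral radius, as a real number (only used for symmetric matrices, whose spectrum is
real). -/
noncomputable def rho {n : ℕ} (A : Matrix (Fin n) (Fin n) ℝ) : ℝ := (spectralRadius ℝ A).toReal

namespace Hierarchy

/-- The Richardson smoother `K_l = I - Lam_l⁻¹ A_l`. -/
noncomputable def K (H : Hierarchy) (l : ℕ) : Matrix (Fin (H.n l)) (Fin (H.n l)) ℝ :=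
  1 - (H.Lam l)⁻¹ • H.A l

/-- `Π_l = A_l⁻¹ R_l A_{l+1}`, from level `l + 1` to level `l`. -/
noncomputable def Pr (H : Hierarchy) (l : ℕ) : Matrix (Fin (H.n l)) (Fin (H.n (l + 1))) ℝ :=
  (H.A l)⁻¹ * H.R l * H.A (l + 1)

/-- The error operators of the cycle with `m` pre- and `m` post-smoothing steps:
`E_0 = 0` and `E_{l+1} = K_{l+1}^m (I - P_l (I - E_l^p) Π_l) K_{l+1}^m`.
Here `p = 1` is the symmetric V-cycle. -/
noncomputable def E (H : Hierarchy) (m p : ℕ) :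
    (l : ℕ) → Matrix (Fin (H.n l)) (Fin (H.n l)) ℝ
  | 0 => 0
  | l + 1 => H.K (l + 1) ^ m * (1 - H.P l * (1 - H.E m p l ^ p) * H.Pr l) * H.K (l + 1) ^ m

/-- The basic requirements on a hierarchy of depth `L`: the level sizes are positive, the matrices
`A_0, ..., A_L` are symmetric positive definite and `P_0, ..., P_{L-1}` have full column rank. -/
def IsHierarchy (H : Hierarchy) (L : ℕ) : Prop :=
  1 ≤ L ∧ (∀ l ≤ L, 0 < H.n l ∧ (H.A l).PosDef) ∧ ∀ l < L, (H.P l).rank = H.n l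

/-- Assumption (G3): for a fixed `r ∈ (0, 1)` and all levels, `R_l = r P_lᵀ` and
`R_l A_{l+1} P_l = 2 A_l`. -/
def G3 (H : Hierarchy) (L : ℕ) : Prop :=
  ∃ r : ℝ, 0 < r ∧ r < 1 ∧ ∀ l < L, H.R l = r • (H.P l)ᵀ ∧
    H.R l * H.A (l + 1) * H.P l = (2 : ℝ) • H.A l

/-- Assumption (R) with constant `CR`: `ρ(A_l) ≤ Lam_l ≤ CR ρ(A_l)` on the levels `1, ..., L`. -/
def CondR (H : Hierarchy) (L : ℕ) (CR : ℝ) : Prop :=
  ∀ l < L, rho (H.A (l + 1)) ≤ H.Lam (l + 1) ∧ H.Lam (l + 1) ≤ CR * rho (H.A (l + 1))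

/-- Assumption `(A2)_α` with constant `C`, on the levels `1, ..., L`. -/
def A2 (H : Hierarchy) (L : ℕ) (C α : ℝ) : Prop :=
  ∀ l < L, ∀ v : Fin (H.n (l + 1)) → ℝ,
    |energyInner (H.A (l + 1)) ((1 - H.P l * H.Pr l) *ᵥ v) v| ≤
      C ^ (2 * α) / rho (H.A (l + 1)) ^ α * euclNorm (H.A (l + 1) *ᵥ v) ^ (2 * α) *
        energyNorm (H.A (l + 1)) v ^ (2 * (1 - α))

/-- `H` is an admissible hierarchy of depth `L` for the constants `CR, C, α`. -/
def Admissible (H : Hierarchy) (L : ℕ) (CR C α : ℝ) : Prop :=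
  H.IsHierarchy L ∧ H.G3 L ∧ H.CondR L CR ∧ H.A2 L C α

end Hierarchy

/-- Uniform V-cycle contraction for `(CR, C, α, m)`: there is `δ < 1` such that
`‖E_L‖_{A_L} ≤ δ` for the V-cycle error operator of every admissible hierarchy of every depth. -/
def UniformVCycleContraction (CR C α : ℝ) (m : ℕ) : Prop :=
  ∃ δ : ℝ, δ < 1 ∧ ∀ (H : Hierarchy) (L : ℕ), H.Admissible L CR C α →
    ∀ v : Fin (H.n L) → ℝ,
      energyNorm (H.A L) (H.E m 1 L *ᵥ v) ≤ δ * energyNorm (H.A L) v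

/-- The critical value of `C ^ (4 α)` for `0 < α ≤ 1/2` (it equals `4` at `α = 1/2`). -/
noncomputable def critical (α : ℝ) : ℝ :=
  2 / (1 - α) * ((1 - 2 * α) / (2 - 2 * α)) ^ (1 - 2 * α)

end Pool.Agent.Lib.MP_89e789_an
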