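import Pool.Agent.Lib.MP_89e789_an.Contraction

open Matrix

namespace Pool.Agent.Lib.MP_89e789_an

/-- The diagonal of the matrices of the example. -/
noncomputable def exD (τ : ℝ) (l : ℕ) (i : Fin (l + 1)) : ℝ := if i = 0 then τ ^ 2 else 1

/-- The matrices of the example. -/
noncomputable def exA (τ : ℝ) (l : ℕ) : Matrix (Fin (l + 1)) (Fin (l + 1)) ℝ :=
  diagonal (exD τ l)

/-- The prolongations of the example. -/
noncomputable def exP (τ c d : ℝ) (l : ℕ) : Matrix (Fin (l + 2)) (Fin (l + 1)) ℝ :=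
  fun i j => Fin.lastCases (motive := fun _ => ℝ) (if j = 0 then 2 * d * τ else 0)
    (fun i' => if i' = j then (if j = 0 then 2 * c else 2) else 0) i

/-- The restrictions of the example. -/
noncomputable def exR (τ c d : ℝ) (l : ℕ) : Matrix (Fin (l + 1)) (Fin (l + 2)) ℝ :=
  (1 / 2 : ℝ) • (exP τ c d l)ᵀ

/-- The example hierarchy. -/
noncomputable def exH (τ c d lam : ℝ) : Hierarchy where
  n l := l + 1
  A l := exA τ l
  P l := exP τ c d l
  R l := exR τ c d l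
  Lam _ := lam

variable {τ c d lam : ℝ}

/-- the fine-to-coarse map `Π` of the example -/
noncomputable def exPi (τ c d : ℝ) (l : ℕ) : Matrix (Fin (l + 1)) (Fin (l + 2)) ℝ :=
  fun j i => Fin.lastCases (motive := fun _ => ℝ) (if j = 0 then d / τ else 0)
    (fun i' => if i' = j then (if j = 0 then c else 1) else 0) i

lemma exP_castSucc (l : ℕ) (i j : Fin (l + 1)) :
    exP τ c d l i.castSucc j = if i = j then (if j = 0 then 2 * c else 2) else 0 := by
  simp [exP]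

lemma exP_last (l : ℕ) (j : Fin (l + 1)) :
    exP τ c d l (Fin.last (l + 1)) j = if j = 0 then 2 * d * τ else 0 := by
  simp [exP]

lemma exR_apply (l : ℕ) (j : Fin (l + 1)) (i : Fin (l + 2)) :
    exR τ c d l j i = (1 / 2) * exP τ c d l i j := rfl

lemma exPi_castSucc (l : ℕ) (i j : Fin (l + 1)) :
    exPi τ c d l j i.castSucc = if i = j then (if j = 0 then c else 1) else 0 := by
  simp [exPi]

lemma exPi_last (l : ℕ) (j : Fin (l + 1)) :
    exPi τ c d l j (Fin.last (l + 1)) = if j = 0 then d / τ else 0 := by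
  simp [exPi]

lemma exD_zero (l : ℕ) : exD τ l 0 = τ ^ 2 := by simp [exD]

lemma exD_ne_zero (l : ℕ) {i : Fin (l + 1)} (hi : i ≠ 0) : exD τ l i = 1 := by simp [exD, hi]

lemma exD_castSucc (l : ℕ) (i : Fin (l + 1)) : exD τ (l + 1) i.castSucc = exD τ l i := by
  unfold exD
  simp

lemma exD_last (l : ℕ) : exD τ (l + 1) (Fin.last (l + 1)) = 1 := by
  unfold exD
  simp [Fin.ext_iff]

lemma exD_pos (hτ : 0 < τ) (l : ℕ) (i : Fin (l + 1)) : 0 < exD τ l i := by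
  unfold exD
  split_ifs <;> positivity

lemma ex_posDef (hτ : 0 < τ) (l : ℕ) : (exA τ l).PosDef :=
  Matrix.PosDef.diagonal (exD_pos hτ l)

lemma ex_G (hcd : c ^ 2 + d ^ 2 = 1) (l : ℕ) :
    exR τ c d l * exA τ (l + 1) * exP τ c d l = (2 : ℝ) • exA τ l := by
  ext j k
  unfold exA
  rw [Matrix.mul_apply]
  simp only [Matrix.mul_diagonal]
  rw [Fin.sum_univ_castSucc]
  simp only [exR_apply, exP_castSucc, exP_last, exD_castSucc, exD_last, Matrix.smul_apply,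
    smul_eq_mul]
  rw [Finset.sum_eq_single j]
  · by_cases hjk : j = k
    · subst hjk
      by_cases hj : j = 0
      · subst hj
        simp [exD_zero]
        linear_combination (2 * τ ^ 2) * hcd
      · simp [hj, exD_ne_zero l hj]
    · rw [Matrix.diagonal_apply_ne _ hjk]
      by_cases hj : j = 0
      · subst hj
        have hk : k ≠ 0 := fun h => hjk h.symm
        simp [hjk, hk]
      · simp [hj, hjk]
  · intro i _ hij
    simp [hij]
  · simp

lemma ex_Pi_aux (hτ : 0 < τ) (l : ℕ) :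
    exA τ l * exPi τ c d l = exR τ c d l * exA τ (l + 1) := by
  ext j i
  unfold exA
  rw [Matrix.diagonal_mul, Matrix.mul_diagonal]
  refine Fin.lastCases (motive := fun i => exD τ l j * exPi τ c d l j i =
    exR τ c d l j i * exD τ (l + 1) i) ?_ (fun i' => ?_) i
  · simp only [exR_apply, exPi_last, exP_last, exD_last]
    by_cases hj : j = 0
    · subst hj
      simp only [exD_zero, if_true]
      field_simp
    · simp [hj]
  · simp only [exR_apply, exPi_castSucc, exP_castSucc, exD_castSucc]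
    by_cases hij : i' = j
    · subst hij
      by_cases hj : i' = 0
      · subst hj
        simp only [exD_zero, if_true]
        ring
      · simp [hj, exD_ne_zero l hj]
    · simp [hij]

lemma ex_Pr (hτ : 0 < τ) (l : ℕ) : (exA τ l)⁻¹ * exR τ c d l * exA τ (l + 1) = exPi τ c d l := by
  have hPD := ex_posDef hτ l
  have hu : IsUnit (exA τ l).det := (Matrix.isUnit_iff_isUnit_det _).mp hPD.isUnit
  rw [Matrix.mul_assoc, ← ex_Pi_aux hτ, Matrix.nonsing_inv_mul_cancel_left _ _ hu]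

lemma ex_rho (hτ : 0 < τ) (hτ1 : τ ≤ 1) (l : ℕ) : rho (exA τ (l + 1)) = 1 := by
  unfold exA
  apply le_antisymm
  · unfold rho
    have : spectralRadius ℝ (diagonal (exD τ (l + 1))) ≤ 1 := by
      unfold spectralRadius
      refine iSup₂_le fun k hk => ?_
      rw [spectrum_diagonal] at hk
      obtain ⟨i, rfl⟩ := hk
      have h1 : 0 < exD τ (l + 1) i := exD_pos hτ _ _
      have h2 : exD τ (l + 1) i ≤ 1 := by
        unfold exD
        split_ifs
        · exact pow_le_one₀ hτ.le hτ1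
        · exact le_rfl
      have : ‖exD τ (l + 1) i‖₊ ≤ 1 := by
        rw [← NNReal.coe_le_coe]
        simp [abs_of_pos h1, h2]
      exact_mod_cast this
    calc (spectralRadius ℝ (diagonal (exD τ (l + 1)))).toReal ≤ (1 : ENNReal).toReal :=
          ENNReal.toReal_mono ENNReal.one_ne_top this
      _ = 1 := by simp
  · have : (1 : ℝ) ∈ spectrum ℝ (diagonal (exD τ (l + 1))) := by
      rw [spectrum_diagonal]
      exact ⟨Fin.last (l + 1), exD_last l⟩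
    have := abs_le_rho_of_mem this
    simpa using this

lemma ex_rank (hτ : 0 < τ) (hcd : c ^ 2 + d ^ 2 = 1) (l : ℕ) : (exP τ c d l).rank = l + 1 := by
  apply le_antisymm
  · exact Matrix.rank_le_width _
  · have h1 : (exR τ c d l * exA τ (l + 1) * exP τ c d l).rank ≤
        (exP τ c d l).rank := Matrix.rank_mul_le_right _ _
    rw [ex_G hcd] at h1
    have h2 : IsUnit ((2 : ℝ) • exA τ l) := by
      have := (ex_posDef hτ l).isUnit
      have h3 : (2 : ℝ) • exA τ l = algebraMap ℝ _ 2 * exA τ l := by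
        rw [Algebra.smul_def]
      rw [h3]
      exact ((IsUnit.mk0 (2 : ℝ) two_ne_zero).map (algebraMap ℝ _)).mul this
    rw [Matrix.rank_of_isUnit _ h2] at h1
    simpa using h1

lemma ex_isHierarchy (hτ : 0 < τ) (hcd : c ^ 2 + d ^ 2 = 1) {L : ℕ} (hL : 1 ≤ L) :
    (exH τ c d lam).IsHierarchy L :=
  ⟨hL, fun l _ => ⟨Nat.succ_pos l, ex_posDef hτ l⟩, fun l _ => ex_rank hτ hcd l⟩

lemma ex_G3 (hcd : c ^ 2 + d ^ 2 = 1) (L : ℕ) : (exH τ c d lam).G3 L :=
  ⟨1 / 2, by norm_num, by norm_num, fun l _ => ⟨rfl, ex_G hcd l⟩⟩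

lemma ex_condR (hτ : 0 < τ) (hτ1 : τ ≤ 1) {CR : ℝ} (h1 : 1 ≤ lam) (h2 : lam ≤ CR) (L : ℕ) :
    (exH τ c d lam).CondR L CR := by
  intro l _
  show rho (exA τ (l + 1)) ≤ lam ∧ lam ≤ CR * rho (exA τ (l + 1))
  rw [ex_rho hτ hτ1]
  refine ⟨h1, ?_⟩
  rw [mul_one]
  exact h2

lemma ex_levelPair (hτ : 0 < τ) (hcd : c ^ 2 + d ^ 2 = 1) (l : ℕ) :
    LevelPair (exA τ (l + 1)) (exA τ l) (exP τ c d l) (exR τ c d l) (1 / 2) :=
  ⟨ex_posDef hτ _, ex_posDef hτ _, by norm_num, rfl, ex_G hcd l⟩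

/-- the real-variable inequality behind `(A2)` for the example -/
lemma core_ineq {s b κ α c d : ℝ} (hs : 0 ≤ s) (hb : 0 < b) (hb1 : b ≤ 1)
    (hκ : 0 < κ) (hα : 0 < α)
    (hc : c ^ 2 = (1 + s) / 2) (hd : d ^ 2 = (1 - s) / 2)
    (H : ∀ x y : ℝ, 0 ≤ x → 0 ≤ y → s * (x ^ 2 + y ^ 2) + 2 * x * y ≤
      κ * (b * x ^ 2 + y ^ 2) ^ α * (x ^ 2 + y ^ 2) ^ (1 - α))
    (X Y Z : ℝ) (hZ : 0 ≤ Z) :
    |X ^ 2 + Z + Y ^ 2 - 2 * ((c * X + d * Y) ^ 2 + Z)| ≤
      κ * (b * X ^ 2 + Z + Y ^ 2) ^ α * (X ^ 2 + Z + Y ^ 2) ^ (1 - α) := by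
  set x := |X| with hx
  set y := Real.sqrt (Y ^ 2 + Z) with hy
  have hx0 : 0 ≤ x := abs_nonneg _
  have hy0 : 0 ≤ y := Real.sqrt_nonneg _
  have hx2 : x ^ 2 = X ^ 2 := sq_abs X
  have hy2 : y ^ 2 = Y ^ 2 + Z := Real.sq_sqrt (by positivity)
  have hYy : |Y| ≤ y := by
    rw [hy]
    apply Real.le_sqrt_of_sq_le
    rw [sq_abs]; linarith
  have hcd : (2 * (c * d)) ^ 2 ≤ 1 := by
    have : (2 * (c * d)) ^ 2 = 4 * (c ^ 2 * d ^ 2) := by ring
    rw [this, hc, hd]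
    have e : 4 * ((1 + s) / 2 * ((1 - s) / 2)) = 1 - s ^ 2 := by ring
    rw [e]
    linarith [sq_nonneg s]
  have hcd' : |2 * (c * d)| ≤ 1 := by
    apply abs_le_of_sq_le_sq _ zero_le_one
    simpa using hcd
  have e1 : X ^ 2 + Z + Y ^ 2 - 2 * ((c * X + d * Y) ^ 2 + Z) =
      -s * X ^ 2 + s * Y ^ 2 - Z - 2 * (2 * (c * d)) * (X * Y) := by
    have : (c * X + d * Y) ^ 2 = c ^ 2 * X ^ 2 + d ^ 2 * Y ^ 2 + 2 * (c * d) * (X * Y) := by ring
    rw [this, hc, hd]; ring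
  have hXY : |X * Y| = x * |Y| := abs_mul X Y
  have h1 : |X ^ 2 + Z + Y ^ 2 - 2 * ((c * X + d * Y) ^ 2 + Z)| ≤
      s * (x ^ 2 + y ^ 2) + Z + 2 * x * |Y| := by
    rw [e1]
    have a1 : |2 * (2 * (c * d)) * (X * Y)| ≤ 2 * x * |Y| := by
      have : 2 * (2 * (c * d)) * (X * Y) = 2 * ((2 * (c * d)) * (X * Y)) := by ring
      rw [this, abs_mul, abs_mul, hXY, abs_two]
      have : |2 * (c * d)| * (x * |Y|) ≤ 1 * (x * |Y|) :=
        mul_le_mul_of_nonneg_right hcd' (by positivity)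
      linarith
    have a2 := abs_le.mp a1
    rw [hx2, hy2]
    have p1 : 0 ≤ s * X ^ 2 := by positivity
    have p2 : 0 ≤ s * Y ^ 2 := by positivity
    have p3 : 0 ≤ s * Z := by positivity
    have p4 : s * (X ^ 2 + (Y ^ 2 + Z)) = s * X ^ 2 + s * Y ^ 2 + s * Z := by ring
    rw [abs_le, p4]
    constructor <;> linarith [a2.1, a2.2]
  have eb : b * X ^ 2 + Z + Y ^ 2 = b * x ^ 2 + y ^ 2 := by rw [hx2, hy2]; ring
  have eX : X ^ 2 + Z + Y ^ 2 = x ^ 2 + y ^ 2 := by rw [hx2, hy2]; ring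
  have e3 : (X ^ 2 + Z + Y ^ 2) ^ (1 - α) = (x ^ 2 + y ^ 2) ^ (1 - α) := by rw [eX]
  have e4 : (b * X ^ 2 + Z + Y ^ 2) ^ α = (b * x ^ 2 + y ^ 2) ^ α := by rw [eb]
  rw [e3, e4]
  by_cases hxy : y ≤ x
  · have h2 : Z + 2 * x * |Y| ≤ 2 * x * y := by
      have a1 : Z = y ^ 2 - |Y| ^ 2 := by rw [hy2, sq_abs]; ring
      rw [a1]
      have a2 : 0 ≤ (y - |Y|) * (2 * x - (y + |Y|)) :=
        mul_nonneg (by linarith) (by linarith)
      have a3 : (y - |Y|) * (2 * x - (y + |Y|)) = 2 * x * y - (y ^ 2 - |Y| ^ 2 + 2 * x * |Y|) := by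
        ring
      linarith
    linarith [H x y hx0 hy0]
  · push Not at hxy
    have h2 : s * (x ^ 2 + y ^ 2) + Z + 2 * x * |Y| ≤ (1 + s) * (x ^ 2 + y ^ 2) := by
      have a1 : 2 * x * |Y| ≤ x ^ 2 + |Y| ^ 2 := by
        have := sq_nonneg (x - |Y|)
        have e : (x - |Y|) ^ 2 = x ^ 2 + |Y| ^ 2 - 2 * x * |Y| := by ring
        linarith
      rw [sq_abs Y] at a1
      have a2 : (1 + s) * (x ^ 2 + y ^ 2) = s * (x ^ 2 + y ^ 2) + x ^ 2 + y ^ 2 := by ring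
      rw [a2]
      linarith
    have h3 := H 1 1 zero_le_one zero_le_one
    have hT : 0 < x ^ 2 + y ^ 2 := by
      have : 0 < y := lt_of_le_of_lt hx0 hxy
      positivity
    have h4 : (1 + s) ≤ κ * ((b + 1) / 2) ^ α := by
      have e5 : ((2 : ℝ)) ^ (1 - α) = 2 / 2 ^ α := by
        rw [Real.rpow_sub two_pos, Real.rpow_one]
      have e6 : κ * (b * 1 ^ 2 + 1 ^ 2) ^ α * (1 ^ 2 + 1 ^ 2) ^ (1 - α) =
          2 * (κ * ((b + 1) / 2) ^ α) := by
        have : (1 : ℝ) ^ 2 + 1 ^ 2 = 2 := by norm_num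
        rw [this, e5, Real.div_rpow (by positivity) (by positivity)]
        have : (2 : ℝ) ^ α ≠ 0 := (Real.rpow_pos_of_pos two_pos _).ne'
        simp only [one_pow, mul_one]
        field_simp
      rw [e6] at h3
      linarith
    have h5 : ((b + 1) / 2) * (x ^ 2 + y ^ 2) ≤ b * x ^ 2 + y ^ 2 := by
      have a1 : x ^ 2 ≤ y ^ 2 := pow_le_pow_left₀ hx0 hxy.le 2
      have a2 : 0 ≤ (1 - b) * (y ^ 2 - x ^ 2) := mul_nonneg (by linarith) (by linarith)
      have a3 : b * x ^ 2 + y ^ 2 - ((b + 1) / 2) * (x ^ 2 + y ^ 2) =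
        (1 - b) * (y ^ 2 - x ^ 2) / 2 := by ring
      linarith
    have h6 : (((b + 1) / 2) * (x ^ 2 + y ^ 2)) ^ α ≤ (b * x ^ 2 + y ^ 2) ^ α :=
      Real.rpow_le_rpow (by positivity) h5 hα.le
    have h7 : (x ^ 2 + y ^ 2) ^ α * (x ^ 2 + y ^ 2) ^ (1 - α) = x ^ 2 + y ^ 2 := by
      rw [← Real.rpow_add hT]; simp
    calc _ ≤ (1 + s) * (x ^ 2 + y ^ 2) := h1.trans h2
      _ ≤ κ * ((b + 1) / 2) ^ α * (x ^ 2 + y ^ 2) := mul_le_mul_of_nonneg_right h4 hT.le
      _ = κ * (((b + 1) / 2) ^ α * (x ^ 2 + y ^ 2) ^ α) * (x ^ 2 + y ^ 2) ^ (1 - α) := by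
          have e8 : κ * (((b + 1) / 2) ^ α * (x ^ 2 + y ^ 2) ^ α) * (x ^ 2 + y ^ 2) ^ (1 - α) =
              κ * ((b + 1) / 2) ^ α * ((x ^ 2 + y ^ 2) ^ α * (x ^ 2 + y ^ 2) ^ (1 - α)) := by ring
          rw [e8, h7]
      _ = κ * (((b + 1) / 2) * (x ^ 2 + y ^ 2)) ^ α * (x ^ 2 + y ^ 2) ^ (1 - α) := by
          rw [Real.mul_rpow (by positivity) hT.le]
      _ ≤ _ := by
          apply mul_le_mul_of_nonneg_right _ (Real.rpow_nonneg hT.le _)
          exact mul_le_mul_of_nonneg_left h6 hκ.le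

/-- `(A2)_α` for the example, given the two-variable inequality `H` (one level). -/
lemma ex_A2_aux {s C α : ℝ} (hτ : 0 < τ) (hτ1 : τ ≤ 1) (hs : 0 ≤ s) (hC : 0 < C)
    (hα : 0 < α) (hc : c ^ 2 = (1 + s) / 2) (hd : d ^ 2 = (1 - s) / 2)
    (H : ∀ x y : ℝ, 0 ≤ x → 0 ≤ y → s * (x ^ 2 + y ^ 2) + 2 * x * y ≤
      C ^ (2 * α) * (τ ^ 2 * x ^ 2 + y ^ 2) ^ α * (x ^ 2 + y ^ 2) ^ (1 - α)) (l : ℕ)
    (v : Fin (l + 2) → ℝ) :
    |energyInner (exA τ (l + 1)) ((1 - exP τ c d l * ((exA τ l)⁻¹ * exR τ c d l *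
      exA τ (l + 1))) *ᵥ v) v| ≤ C ^ (2 * α) / rho (exA τ (l + 1)) ^ α *
      euclNorm (exA τ (l + 1) *ᵥ v) ^ (2 * α) * energyNorm (exA τ (l + 1)) v ^ (2 * (1 - α)) := by
  have hcd : c ^ 2 + d ^ 2 = 1 := by rw [hc, hd]; ring
  rw [ex_rho hτ hτ1, Real.one_rpow, div_one]
  set X := τ * v 0 with hX
  set Y := v (Fin.last (l + 1)) with hY
  set Z := ∑ j : Fin l, v (j.succ.castSucc) ^ 2 with hZ
  have hZ0 : 0 ≤ Z := Finset.sum_nonneg fun j _ => sq_nonneg _
  have hne : ∀ j : Fin l, (j.succ : Fin (l + 1)) ≠ 0 := fun j => Fin.succ_ne_zero j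
  have e1 : energyInner (exA τ (l + 1)) v v = X ^ 2 + Z + Y ^ 2 := by
    unfold energyInner exA
    simp only [dotProduct, Matrix.mulVec_diagonal]
    rw [Fin.sum_univ_castSucc, Fin.sum_univ_succ]
    simp only [exD_castSucc, exD_last, exD_ne_zero l (hne _), exD_zero, Fin.castSucc_zero]
    rw [hX, hZ, hY]
    have : ∀ j : Fin l, v (j.succ.castSucc) * (1 * v (j.succ.castSucc)) =
      v (j.succ.castSucc) ^ 2 := fun j => by ring
    simp only [this]
    ring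
  have e2 : (exA τ (l + 1) *ᵥ v) ⬝ᵥ (exA τ (l + 1) *ᵥ v) = τ ^ 2 * X ^ 2 + Z + Y ^ 2 := by
    unfold exA
    simp only [dotProduct, Matrix.mulVec_diagonal]
    rw [Fin.sum_univ_castSucc, Fin.sum_univ_succ]
    simp only [exD_castSucc, exD_last, exD_ne_zero l (hne _), exD_zero, Fin.castSucc_zero]
    rw [hX, hZ, hY]
    have : ∀ j : Fin l, 1 * v (j.succ.castSucc) * (1 * v (j.succ.castSucc)) =
      v (j.succ.castSucc) ^ 2 := fun j => by ring
    simp only [this]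
    ring
  have e3 : energyInner (exA τ l) (exPi τ c d l *ᵥ v) (exPi τ c d l *ᵥ v) =
      (c * X + d * Y) ^ 2 + Z := by
    have hz : ∀ j : Fin (l + 1), (exPi τ c d l *ᵥ v) j =
        (if j = 0 then c else 1) * v j.castSucc + (if j = 0 then d / τ else 0) * Y := by
      intro j
      simp only [mulVec, dotProduct]
      rw [Fin.sum_univ_castSucc]
      simp only [exPi_castSucc, exPi_last]
      rw [Finset.sum_eq_single j]
      · simp [hY]
      · intro i _ hij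
        simp [hij]
      · simp
    unfold energyInner exA
    simp only [dotProduct, Matrix.mulVec_diagonal, hz]
    rw [Fin.sum_univ_succ]
    simp only [exD_zero, exD_ne_zero l (hne _), if_true, Fin.castSucc_zero, hne, if_false]
    have : ∀ j : Fin l, (1 * v (j.succ.castSucc) + 0 * Y) *
      (1 * (1 * v (j.succ.castSucc) + 0 * Y)) = v (j.succ.castSucc) ^ 2 := fun j => by ring
    simp only [this]
    rw [← hZ, hX]
    field_simp
  have e4 : energyInner (exA τ (l + 1)) ((1 - exP τ c d l * ((exA τ l)⁻¹ * exR τ c d l *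
      exA τ (l + 1))) *ᵥ v) v = X ^ 2 + Z + Y ^ 2 - 2 * ((c * X + d * Y) ^ 2 + Z) := by
    rw [LevelPair.S_eq, ei_sub_left, (ex_levelPair hτ hcd l).adj, ex_Pr hτ, e1, e3]
    norm_num
  have hcore := core_ineq hs (by positivity : (0 : ℝ) < τ ^ 2) (pow_le_one₀ hτ.le hτ1)
    (Real.rpow_pos_of_pos hC (2 * α)) hα hc hd H X Y Z hZ0
  rw [e4]
  refine hcore.trans (le_of_eq ?_)
  have f1 : euclNorm (exA τ (l + 1) *ᵥ v) ^ (2 * α) = (τ ^ 2 * X ^ 2 + Z + Y ^ 2) ^ α := by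
    rw [← e2, ← euclNorm_sq, ← Real.rpow_natCast, ← Real.rpow_mul (euclNorm_nonneg _)]
    norm_num
  have f2 : energyNorm (exA τ (l + 1)) v ^ (2 * (1 - α)) = (X ^ 2 + Z + Y ^ 2) ^ (1 - α) := by
    rw [← e1, ← energyNorm_sq (ex_posDef hτ _), ← Real.rpow_natCast,
      ← Real.rpow_mul (energyNorm_nonneg _ _)]
    norm_num
  rw [f1, f2]

/-- `(A2)_α` for the example, given the two-variable inequality `H`. -/
lemma ex_A2 {s C α : ℝ} (hτ : 0 < τ) (hτ1 : τ ≤ 1) (hs : 0 ≤ s) (hC : 0 < C)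
    (hα : 0 < α) (hc : c ^ 2 = (1 + s) / 2) (hd : d ^ 2 = (1 - s) / 2)
    (H : ∀ x y : ℝ, 0 ≤ x → 0 ≤ y → s * (x ^ 2 + y ^ 2) + 2 * x * y ≤
      C ^ (2 * α) * (τ ^ 2 * x ^ 2 + y ^ 2) ^ α * (x ^ 2 + y ^ 2) ^ (1 - α)) (L : ℕ) :
    (exH τ c d lam).A2 L C α :=
  fun l _ v => ex_A2_aux hτ hτ1 hs hC hα hc hd H l v

/-- The example, assembled. -/
theorem ex_admissible {s C α CR : ℝ} (hτ : 0 < τ) (hτ1 : τ ≤ 1) (hs : 0 ≤ s)
    (hC : 0 < C) (hα : 0 < α) (hc : c ^ 2 = (1 + s) / 2)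
    (hd : d ^ 2 = (1 - s) / 2)
    (H : ∀ x y : ℝ, 0 ≤ x → 0 ≤ y → s * (x ^ 2 + y ^ 2) + 2 * x * y ≤
      C ^ (2 * α) * (τ ^ 2 * x ^ 2 + y ^ 2) ^ α * (x ^ 2 + y ^ 2) ^ (1 - α))
    (hl1 : 1 ≤ lam) (hl2 : lam ≤ CR) {L : ℕ} (hL : 1 ≤ L) :
    (exH τ c d lam).Admissible L CR C α :=
  ⟨ex_isHierarchy hτ (by rw [hc, hd]; ring) hL, ex_G3 (by rw [hc, hd]; ring) L,
    ex_condR hτ hτ1 hl1 hl2 L, ex_A2 hτ hτ1 hs hC hα hc hd H L⟩

/-- The V-cycle error operators of the example, with level sizes made explicit. -/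
noncomputable def exE (τ c d lam : ℝ) (m l : ℕ) : Matrix (Fin (l + 1)) (Fin (l + 1)) ℝ :=
  (exH τ c d lam).E m 1 l

lemma ex_K (m l : ℕ) : (exH τ c d lam).K l ^ m =
    diagonal (fun i : Fin (l + 1) => (1 - lam⁻¹ * exD τ l i) ^ m) := by
  have h1 : (exH τ c d lam).K l = diagonal (fun i : Fin (l + 1) => 1 - lam⁻¹ * exD τ l i) := by
    show (1 : Matrix (Fin (l + 1)) (Fin (l + 1)) ℝ) - lam⁻¹ • exA τ l = _
    unfold exA
    rw [← Matrix.diagonal_one, ← Matrix.diagonal_smul, Matrix.diagonal_sub]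
    rfl
  rw [h1]
  show (diagonal (fun i : Fin (l + 1) => 1 - lam⁻¹ * exD τ l i)) ^ m = _
  rw [Matrix.diagonal_pow]
  rfl

/-- The recursion for the `(0, 0)` entry of the V-cycle error operator of the example. -/
lemma ex_E_zero (hτ : 0 < τ) (m l : ℕ) :
    exE τ c d lam m (l + 1) 0 0 =
      (1 - lam⁻¹ * τ ^ 2) ^ (2 * m) * (1 - 2 * c ^ 2 * (1 - exE τ c d lam m l 0 0)) := by
  have hE : exE τ c d lam m (l + 1) =
      diagonal (fun i : Fin (l + 2) => (1 - lam⁻¹ * exD τ (l + 1) i) ^ m) *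
      (1 - exP τ c d l * (1 - exE τ c d lam m l) * exPi τ c d l) *
      diagonal (fun i : Fin (l + 2) => (1 - lam⁻¹ * exD τ (l + 1) i) ^ m) := by
    have e0 : exE τ c d lam m (l + 1) = (exH τ c d lam).K (l + 1) ^ m *
      (1 - (exH τ c d lam).P l * (1 - (exH τ c d lam).E m 1 l ^ 1) * (exH τ c d lam).Pr l) *
      (exH τ c d lam).K (l + 1) ^ m := rfl
    rw [e0, ex_K, pow_one]
    have e1 : (exH τ c d lam).Pr l = exPi τ c d l := ex_Pr hτ l
    rw [e1]
    rfl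
  rw [hE, Matrix.mul_diagonal, Matrix.diagonal_mul]
  have hP0 : ∀ j : Fin (l + 1), exP τ c d l 0 j = if j = 0 then 2 * c else 0 := by
    intro j
    have := exP_castSucc (τ := τ) (c := c) (d := d) l 0 j
    rw [Fin.castSucc_zero] at this
    rw [this]
    by_cases hj : j = 0
    · simp [hj]
    · have : ¬ (0 = j) := fun h => hj h.symm
      simp [hj, this]
  have hPi0 : ∀ j : Fin (l + 1), exPi τ c d l j 0 = if j = 0 then c else 0 := by
    intro j
    have := exPi_castSucc (τ := τ) (c := c) (d := d) l 0 j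
    rw [Fin.castSucc_zero] at this
    rw [this]
    by_cases hj : j = 0
    · simp [hj]
    · have : ¬ (0 = j) := fun h => hj h.symm
      simp [hj, this]
  have hY : (1 - exP τ c d l * (1 - exE τ c d lam m l) * exPi τ c d l :
      Matrix (Fin (l + 2)) (Fin (l + 2)) ℝ) 0 0 =
      1 - 2 * c ^ 2 * (1 - exE τ c d lam m l 0 0) := by
    rw [Matrix.sub_apply, Matrix.one_apply_eq, Matrix.mul_apply]
    simp only [hPi0, Matrix.mul_apply, hP0]
    simp only [mul_ite, mul_zero, Finset.sum_ite_eq', Finset.mem_univ, if_true, ite_mul, zero_mul,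
      Matrix.sub_apply, Matrix.one_apply_eq]
    ring
  rw [hY, exD_zero]
  ring

lemma ex_E_base (m : ℕ) : exE τ c d lam m 0 0 0 = 0 := rfl

/-- growth of the `(0, 0)` entry -/
lemma ex_growth {s : ℝ} (hτ : 0 < τ) (hs : 0 ≤ s) (hc : c ^ 2 = (1 + s) / 2) (m : ℕ)
    (hgr : 1 ≤ (1 - lam⁻¹ * τ ^ 2) ^ (2 * m) * (1 + s)) (l : ℕ) :
    exE τ c d lam m l 0 0 ≤ -(l * (s / (1 + s))) := by
  induction l with
  | zero => simp [ex_E_base]
  | succ l ih =>
    rw [ex_E_zero hτ, hc]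
    set κ := (1 - lam⁻¹ * τ ^ 2) ^ (2 * m) with hκ
    set e := exE τ c d lam m l 0 0 with he
    have h1s : 0 < 1 + s := by linarith
    have hκ2 : 1 / (1 + s) ≤ κ := by
      rw [div_le_iff₀ h1s]; exact hgr
    have hq : 0 ≤ s / (1 + s) := div_nonneg hs h1s.le
    have he0 : e ≤ 0 := ih.trans (by
      have : 0 ≤ (l : ℝ) * (s / (1 + s)) := mul_nonneg (Nat.cast_nonneg _) hq
      linarith)
    have e1 : κ * (1 - 2 * ((1 + s) / 2) * (1 - e)) = κ * (1 + s) * e - κ * s := by ring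
    rw [e1]
    have h2 : κ * (1 + s) * e ≤ 1 * e := mul_le_mul_of_nonpos_right hgr he0
    have h3 : s / (1 + s) ≤ κ * s := by
      have : 1 / (1 + s) * s ≤ κ * s := mul_le_mul_of_nonneg_right hκ2 hs
      calc s / (1 + s) = 1 / (1 + s) * s := by ring
        _ ≤ _ := this
    push_cast
    linarith

/-- Energy norms of `e_0` and of `E e_0`. -/
lemma ex_norm_ge (hτ : 0 < τ) (m l : ℕ) {M : ℝ} (hM : 0 ≤ M)
    (h : M < |exE τ c d lam m l 0 0|) :
    M * energyNorm (exA τ l) (Pi.single 0 1) <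
      energyNorm (exA τ l) (exE τ c d lam m l *ᵥ Pi.single 0 1) := by
  have hPD := ex_posDef hτ l
  set w := exE τ c d lam m l *ᵥ (Pi.single 0 1 : Fin (l + 1) → ℝ) with hw
  have hw0 : w 0 = exE τ c d lam m l 0 0 := by
    rw [hw, Matrix.mulVec_single_one]
    rfl
  have e1 : energyInner (exA τ l) (Pi.single 0 1) (Pi.single 0 1) = τ ^ 2 := by
    unfold energyInner exA
    rw [Matrix.mulVec_single_one]
    simp [exD]
  have e2 : τ ^ 2 * (w 0) ^ 2 ≤ energyInner (exA τ l) w w := by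
    unfold energyInner exA
    simp only [dotProduct, Matrix.mulVec_diagonal]
    have : τ ^ 2 * (w 0) ^ 2 = w 0 * (exD τ l 0 * w 0) := by rw [exD_zero]; ring
    rw [this]
    refine Finset.single_le_sum (f := fun i => w i * (exD τ l i * w i)) (fun i _ => ?_)
      (Finset.mem_univ 0)
    have := exD_pos hτ l i
    have : w i * (exD τ l i * w i) = exD τ l i * (w i * w i) := by ring
    rw [this]
    exact mul_nonneg (exD_pos hτ l i).le (mul_self_nonneg _)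
  apply lt_of_pow_lt_pow_left₀ 2 (energyNorm_nonneg _ _)
  rw [mul_pow, energyNorm_sq hPD, energyNorm_sq hPD, e1]
  refine lt_of_lt_of_le ?_ e2
  rw [hw0, mul_comm]
  apply mul_lt_mul_of_pos_left _ (by positivity)
  rw [← sq_abs (exE τ c d lam m l 0 0)]
  exact pow_lt_pow_left₀ h hM two_ne_zero

/-- The divergence statement: under the two-variable inequality and the growth condition, the
V-cycle error operators of admissible hierarchies are unbounded. -/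
theorem diverges {s C α CR lam τ : ℝ} (hτ : 0 < τ) (hτ1 : τ ≤ 1) (hs : 0 < s) (hs1 : s ≤ 1)
    (hC : 0 < C) (hα : 0 < α)
    (H : ∀ x y : ℝ, 0 ≤ x → 0 ≤ y → s * (x ^ 2 + y ^ 2) + 2 * x * y ≤
      C ^ (2 * α) * (τ ^ 2 * x ^ 2 + y ^ 2) ^ α * (x ^ 2 + y ^ 2) ^ (1 - α))
    (hl1 : 1 ≤ lam) (hl2 : lam ≤ CR) (m : ℕ)
    (hgr : 1 ≤ (1 - lam⁻¹ * τ ^ 2) ^ (2 * m) * (1 + s)) (M : ℝ) :
    ∃ (H : Hierarchy) (L : ℕ), H.Admissible L CR C α ∧
      ∃ v : Fin (H.n L) → ℝ, M * energyNorm (H.A L) v < energyNorm (H.A L) (H.E m 1 L *ᵥ v) := by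
  set c := Real.sqrt ((1 + s) / 2) with hc
  set d := Real.sqrt ((1 - s) / 2) with hd
  have hc2 : c ^ 2 = (1 + s) / 2 := Real.sq_sqrt (by linarith)
  have hd2 : d ^ 2 = (1 - s) / 2 := Real.sq_sqrt (by linarith)
  have hq : 0 < s / (1 + s) := by positivity
  obtain ⟨N, hN⟩ := exists_nat_gt (|M| / (s / (1 + s)))
  have hN' : |M| < N * (s / (1 + s)) := by
    rwa [div_lt_iff₀ hq] at hN
  set L := N + 1 with hL
  refine ⟨exH τ c d lam, L, ex_admissible hτ hτ1 hs.le hC hα hc2 hd2 H hl1 hl2 (by omega),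
    (Pi.single 0 1 : Fin (L + 1) → ℝ), ?_⟩
  have hgrow := ex_growth (c := c) (d := d) hτ hs.le hc2 m hgr L
  have hLN : (N : ℝ) * (s / (1 + s)) ≤ L * (s / (1 + s)) := by
    apply mul_le_mul_of_nonneg_right _ hq.le
    rw [hL]; push_cast; linarith
  have habs : |M| < |exE τ c d lam m L 0 0| := by
    have h1 : exE τ c d lam m L 0 0 ≤ -|M| := by linarith
    have h2 : exE τ c d lam m L 0 0 < -|M| := by linarith
    have h3 := neg_le_abs (exE τ c d lam m L 0 0)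
    linarith
  have h1 := ex_norm_ge hτ m L (abs_nonneg M) habs
  have h2 : M * energyNorm (exA τ L) (Pi.single 0 1) ≤
      |M| * energyNorm (exA τ L) (Pi.single 0 1) :=
    mul_le_mul_of_nonneg_right (le_abs_self M) (energyNorm_nonneg _ _)
  exact lt_of_le_of_lt h2 h1

end Pool.Agent.Lib.MP_89e789_an
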