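import Pool.Agent.Lib.MP_89e789_an.Main

open Matrix

namespace Pool.Agent.Lib.MP_89e789_an

/-- Upper bound for the threshold, `1/2 < α ≤ 1`. -/
theorem growth_upper {α CR C : ℝ} (hα : 1 / 2 < α) (hα1 : α ≤ 1) (hC : 0 < C)
    (hC8 : 8 ≤ C ^ (2 * α)) (m : ℕ)
    (hm : 3 * (6 : ℝ) ^ (2 * (1 - α) / (2 * α - 1)) * CR * C ^ (2 * α / (2 * α - 1)) ≤ m)
    (H : Hierarchy) (L : ℕ) (hH : H.Admissible L CR C α) (v : Fin (H.n L) → ℝ) :
    energyNorm (H.A L) (H.E m 1 L *ᵥ v) ≤ (1 / 2) * energyNorm (H.A L) v := by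
  have hα0 : 0 < α := by linarith
  have hp : 0 < 2 * α - 1 := by linarith
  set c := C ^ (2 * α) with hc
  have hc0 : 0 < c := by linarith
  have h6c : 1 ≤ 6 * c := by linarith
  set t := (1 / (6 * c)) ^ (1 / (2 * α - 1)) with ht
  have hu0 : 0 < 1 / (6 * c) := by positivity
  have hu1 : 1 / (6 * c) ≤ 1 := by rw [div_le_one (by positivity)]; exact h6c
  have ht0 : 0 < t := Real.rpow_pos_of_pos hu0 _
  have ht1 : t ≤ 1 := Real.rpow_le_one hu0.le hu1 (by positivity)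
  have htp : t ^ (2 * α - 1) = 1 / (6 * c) := by
    rw [ht, ← Real.rpow_mul hu0.le, one_div_mul_cancel hp.ne', Real.rpow_one]
  have ht2α : c * t ^ (2 * α) = t / 6 := by
    have e : t ^ (2 * α) = t ^ (2 * α - 1) * t := by
      rw [← Real.rpow_add_one ht0.ne']
      congr 1; ring
    rw [e, htp]
    field_simp
  have hφ : (1 + t ^ 2) * (C ^ (2 * α) * t ^ (2 * α)) + C ^ (2 * α) * (t + t) ^ (2 * α) *
      (Real.sqrt (1 + t ^ 2 + 2 * t * (C ^ (2 * α) * t ^ (2 * α)))) ^ (2 * (1 - α)) < 2 * t := by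
    rw [← hc, ht2α]
    have ht2 : t ^ 2 ≤ 1 := pow_le_one₀ ht0.le ht1
    have a1 : (1 + t ^ 2) * (t / 6) ≤ t / 3 := by nlinarith
    have a2 : c * (t + t) ^ (2 * α) ≤ 2 * t / 3 := by
      have e : (t + t) ^ (2 * α) = (2 : ℝ) ^ (2 * α) * t ^ (2 * α) := by
        rw [← two_mul, Real.mul_rpow (by norm_num) ht0.le]
      have e2 : (2 : ℝ) ^ (2 * α) ≤ 4 := by
        calc (2 : ℝ) ^ (2 * α) ≤ (2 : ℝ) ^ (2 : ℝ) :=
              Real.rpow_le_rpow_of_exponent_le (by norm_num) (by linarith)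
          _ = 4 := by norm_num
      rw [e]
      calc c * ((2 : ℝ) ^ (2 * α) * t ^ (2 * α)) = (2 : ℝ) ^ (2 * α) * (c * t ^ (2 * α)) := by ring
        _ = (2 : ℝ) ^ (2 * α) * (t / 6) := by rw [ht2α]
        _ ≤ 4 * (t / 6) := mul_le_mul_of_nonneg_right e2 (by positivity)
        _ = 2 * t / 3 := by ring
    have a3 : (Real.sqrt (1 + t ^ 2 + 2 * t * (t / 6))) ^ (2 * (1 - α)) ≤ 2 := by
      have hs : Real.sqrt (1 + t ^ 2 + 2 * t * (t / 6)) ≤ 2 := by
        rw [Real.sqrt_le_left (by norm_num)]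
        nlinarith
      have hs1 : 1 ≤ Real.sqrt (1 + t ^ 2 + 2 * t * (t / 6)) := by
        rw [Real.one_le_sqrt]
        nlinarith
      calc (Real.sqrt (1 + t ^ 2 + 2 * t * (t / 6))) ^ (2 * (1 - α))
          ≤ (Real.sqrt (1 + t ^ 2 + 2 * t * (t / 6))) ^ (1 : ℝ) :=
            Real.rpow_le_rpow_of_exponent_le hs1 (by linarith)
        _ ≤ 2 := by rw [Real.rpow_one]; exact hs
    have a4 : c * (t + t) ^ (2 * α) *
        (Real.sqrt (1 + t ^ 2 + 2 * t * (t / 6))) ^ (2 * (1 - α)) ≤ (2 * t / 3) * 2 := by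
      apply mul_le_mul a2 a3 (Real.rpow_nonneg (Real.sqrt_nonneg _) _) (by positivity)
    linarith
  refine threshold_of_eps hα0 hα1 hC ht0 ht0 hφ m (le_trans (le_of_eq ?_) hm) H L hH v
  -- `c / t^{2(1-α)} = 6^{..} C^{..}`
  have e1 : t ^ (2 * (1 - α)) = (1 / (6 * c)) ^ (2 * (1 - α) / (2 * α - 1)) := by
    rw [ht, ← Real.rpow_mul hu0.le]
    congr 1; ring
  have e2 : (1 / (6 * c)) ^ (2 * (1 - α) / (2 * α - 1)) =
      ((6 : ℝ) ^ (2 * (1 - α) / (2 * α - 1)) * c ^ (2 * (1 - α) / (2 * α - 1)))⁻¹ := by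
    rw [one_div, Real.inv_rpow (by positivity), Real.mul_rpow (by norm_num) hc0.le]
  have e3 : c * c ^ (2 * (1 - α) / (2 * α - 1)) = C ^ (2 * α / (2 * α - 1)) := by
    rw [mul_comm, ← Real.rpow_add_one hc0.ne', hc, ← Real.rpow_mul hC.le]
    congr 1
    field_simp
    ring
  rw [← hc, e1, e2, div_inv_eq_mul, ← e3]
  ring

/-- Lower bound for the threshold, `1/2 < α ≤ 1`. -/
theorem growth_lower {α CR C : ℝ} (hα : 1 / 2 < α) (hα1 : α ≤ 1) (hCR : 1 ≤ CR) (hC : 0 < C)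
    (hC8 : 8 ≤ C ^ (2 * α)) (m : ℕ)
    (hm : (m : ℝ) ≤ 1 / 2 * (1 / 4 : ℝ) ^ (1 / (2 * α - 1)) * CR * C ^ (2 * α / (2 * α - 1)))
    (M : ℝ) :
    ∃ (H : Hierarchy) (L : ℕ), H.Admissible L CR C α ∧
      ∃ v : Fin (H.n L) → ℝ, M * energyNorm (H.A L) v < energyNorm (H.A L) (H.E m 1 L *ᵥ v) := by
  have hα0 : 0 < α := by linarith
  have hp : 0 < 2 * α - 1 := by linarith
  set c := C ^ (2 * α) with hc
  have hc0 : 0 < c := by linarith
  set τ := (4 / c) ^ (1 / (2 * α - 1)) with hτdef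
  have hu0 : 0 < 4 / c := by positivity
  have hu1 : 4 / c ≤ 1 / 2 := by
    rw [div_le_div_iff₀ hc0 (by norm_num)]
    linarith
  have hτ : 0 < τ := Real.rpow_pos_of_pos hu0 _
  have hexp : 1 ≤ 1 / (2 * α - 1) := by
    rw [le_div_iff₀ hp]; linarith
  have hτh : τ ≤ 1 / 2 := by
    calc τ ≤ (1 / 2 : ℝ) ^ (1 / (2 * α - 1)) :=
          Real.rpow_le_rpow hu0.le hu1 (by positivity)
      _ ≤ (1 / 2 : ℝ) ^ (1 : ℝ) :=
          Real.rpow_le_rpow_of_exponent_ge (by norm_num) (by norm_num) hexp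
      _ = 1 / 2 := Real.rpow_one _
  have hτ1 : τ ≤ 1 := by linarith
  have hτp : τ ^ (2 * α - 1) = 4 / c := by
    rw [hτdef, ← Real.rpow_mul hu0.le, one_div_mul_cancel hp.ne', Real.rpow_one]
  have hτneg : τ ^ (1 - 2 * α) = c / 4 := by
    have e : 1 - 2 * α = -(2 * α - 1) := by ring
    rw [e, Real.rpow_neg hτ.le, hτp, inv_div]
  set s := 2 * τ with hs
  have hs0 : 0 < s := by positivity
  have hs1 : s ≤ 1 := by rw [hs]; linarith
  have H : ∀ x y : ℝ, 0 ≤ x → 0 ≤ y → s * (x ^ 2 + y ^ 2) + 2 * x * y ≤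
      C ^ (2 * α) * (τ ^ 2 * x ^ 2 + y ^ 2) ^ α * (x ^ 2 + y ^ 2) ^ (1 - α) := by
    intro x y hx hy
    rw [← hc]
    rcases (by positivity : 0 ≤ x ^ 2 + y ^ 2).lt_or_eq with hT | hT
    swap
    · have hx0 : x = 0 := by nlinarith [sq_nonneg x, sq_nonneg y]
      have hy0 : y = 0 := by nlinarith [sq_nonneg x, sq_nonneg y]
      subst hx0; subst hy0
      have : s * ((0 : ℝ) ^ 2 + 0 ^ 2) + 2 * 0 * 0 = 0 := by ring
      rw [this]
      exact mul_nonneg (mul_nonneg hc0.le (Real.rpow_nonneg (by positivity) _))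
        (Real.rpow_nonneg (by positivity) _)
    · set T := x ^ 2 + y ^ 2 with hTdef
      set w := τ ^ 2 * x ^ 2 + y ^ 2 with hw
      have hwT : τ ^ 2 * T ≤ w := by
        have : τ ^ 2 * y ^ 2 ≤ 1 * y ^ 2 :=
          mul_le_mul_of_nonneg_right (pow_le_one₀ hτ.le hτ1) (sq_nonneg y)
        rw [hTdef, hw]; linarith
      have hτT : 0 < τ ^ 2 * T := by positivity
      have hw0 : 0 < w := lt_of_lt_of_le hτT hwT
      have hτ2 : (τ ^ 2) ^ α = τ ^ (2 * α) := by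
        rw [← Real.rpow_natCast, ← Real.rpow_mul hτ.le]; norm_num
      have hτ2' : (τ ^ 2) ^ (1 / 2 - α) = τ ^ (1 - 2 * α) := by
        rw [← Real.rpow_natCast, ← Real.rpow_mul hτ.le]
        congr 1; push_cast; ring
      have hT' : 0 ≤ T ^ (1 - α) := Real.rpow_nonneg hT.le _
      have h1 : s * T ≤ c / 2 * w ^ α * T ^ (1 - α) := by
        have e1 : T = T ^ α * T ^ (1 - α) := by rw [← Real.rpow_add hT]; simp
        have e2 : s = c / 2 * (τ ^ 2) ^ α := by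
          rw [hτ2]
          have : τ ^ (2 * α) = τ ^ (2 * α - 1) * τ := by
            rw [← Real.rpow_add_one hτ.ne']
            congr 1; ring
          rw [this, hτp, hs]
          field_simp
          ring
        calc s * T = c / 2 * ((τ ^ 2) ^ α * T ^ α) * T ^ (1 - α) := by
              conv_lhs => rw [e1, e2]
              ring
          _ = c / 2 * (τ ^ 2 * T) ^ α * T ^ (1 - α) := by
              rw [Real.mul_rpow (by positivity) hT.le]
          _ ≤ _ := by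
              apply mul_le_mul_of_nonneg_right _ hT'
              apply mul_le_mul_of_nonneg_left _ (by positivity)
              exact Real.rpow_le_rpow hτT.le hwT hα0.le
      have h2 : 2 * x * y ≤ c / 2 * w ^ α * T ^ (1 - α) := by
        have b1 : x ≤ T ^ (1 / 2 : ℝ) := by
          rw [← Real.sqrt_eq_rpow]
          apply Real.le_sqrt_of_sq_le
          rw [hTdef]; linarith [sq_nonneg y]
        have b2 : y ≤ w ^ (1 / 2 : ℝ) := by
          rw [← Real.sqrt_eq_rpow]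
          apply Real.le_sqrt_of_sq_le
          rw [hw]
          have : 0 ≤ τ ^ 2 * x ^ 2 := by positivity
          linarith
        have b3 : w ^ (1 / 2 : ℝ) = w ^ α * w ^ (1 / 2 - α) := by
          rw [← Real.rpow_add hw0]; congr 1; ring
        have b4 : w ^ (1 / 2 - α) ≤ (τ ^ 2 * T) ^ (1 / 2 - α) :=
          Real.rpow_le_rpow_of_nonpos hτT hwT (by linarith)
        have b5 : (τ ^ 2 * T) ^ (1 / 2 - α) = c / 4 * T ^ (1 / 2 - α) := by
          rw [Real.mul_rpow (by positivity) hT.le, hτ2', hτneg]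
        have b6 : T ^ (1 / 2 : ℝ) * T ^ (1 / 2 - α) = T ^ (1 - α) := by
          rw [← Real.rpow_add hT]; congr 1; ring
        have hwα : 0 ≤ w ^ α := Real.rpow_nonneg hw0.le _
        calc 2 * x * y = 2 * (x * y) := by ring
          _ ≤ 2 * (T ^ (1 / 2 : ℝ) * w ^ (1 / 2 : ℝ)) := by
              apply mul_le_mul_of_nonneg_left _ (by norm_num)
              exact mul_le_mul b1 b2 hy (Real.rpow_nonneg hT.le _)
          _ = 2 * T ^ (1 / 2 : ℝ) * w ^ α * w ^ (1 / 2 - α) := by rw [b3]; ring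
          _ ≤ 2 * T ^ (1 / 2 : ℝ) * w ^ α * (c / 4 * T ^ (1 / 2 - α)) := by
              rw [← b5]
              apply mul_le_mul_of_nonneg_left b4
              have := Real.rpow_nonneg hT.le (1 / 2)
              positivity
          _ = c / 2 * w ^ α * (T ^ (1 / 2 : ℝ) * T ^ (1 / 2 - α)) := by ring
          _ = _ := by rw [b6]
      calc s * T + 2 * x * y ≤ c / 2 * w ^ α * T ^ (1 - α) + c / 2 * w ^ α * T ^ (1 - α) :=
            add_le_add h1 h2
        _ = _ := by ring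
  refine diverges hτ hτ1 hs0 hs1 hC hα0 H hCR le_rfl m ?_ M
  have hCR0 : 0 < CR := by linarith
  have hmτ : (m : ℝ) * τ / CR ≤ 1 / 2 := by
    have e1 : C ^ (2 * α / (2 * α - 1)) = c ^ (1 / (2 * α - 1)) := by
      rw [hc, ← Real.rpow_mul hC.le]; congr 1; ring
    have e2 : (1 / 4 : ℝ) ^ (1 / (2 * α - 1)) * c ^ (1 / (2 * α - 1)) * τ = 1 := by
      rw [← Real.mul_rpow (by norm_num) hc0.le, hτdef, ← Real.mul_rpow (by positivity) hu0.le]
      have : 1 / 4 * c * (4 / c) = 1 := by field_simp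
      rw [this, Real.one_rpow]
    rw [div_le_iff₀ hCR0]
    rw [e1] at hm
    calc (m : ℝ) * τ ≤ (1 / 2 * (1 / 4 : ℝ) ^ (1 / (2 * α - 1)) * CR *
          c ^ (1 / (2 * α - 1))) * τ := mul_le_mul_of_nonneg_right hm hτ.le
      _ = 1 / 2 * CR * ((1 / 4 : ℝ) ^ (1 / (2 * α - 1)) * c ^ (1 / (2 * α - 1)) * τ) := by ring
      _ = 1 / 2 * CR := by rw [e2, mul_one]
  have hinv : CR⁻¹ * τ ^ 2 ≤ 1 := by
    have h1 : CR⁻¹ ≤ 1 := inv_le_one_of_one_le₀ hCR
    have h2 : τ ^ 2 ≤ 1 := pow_le_one₀ hτ.le hτ1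
    calc CR⁻¹ * τ ^ 2 ≤ 1 * 1 := mul_le_mul h1 h2 (by positivity) zero_le_one
      _ = 1 := one_mul 1
  have hb : 1 + ((2 * m : ℕ) : ℝ) * (-(CR⁻¹ * τ ^ 2)) ≤ (1 + (-(CR⁻¹ * τ ^ 2))) ^ (2 * m) := by
    apply one_add_mul_le_pow
    linarith
  have hb' : 1 - 2 * τ * ((m : ℝ) * τ / CR) ≤ (1 - CR⁻¹ * τ ^ 2) ^ (2 * m) := by
    have e : (1 + (-(CR⁻¹ * τ ^ 2))) = 1 - CR⁻¹ * τ ^ 2 := by ring
    rw [e] at hb
    push_cast at hb
    have e2 : 1 - 2 * τ * ((m : ℝ) * τ / CR) = 1 + 2 * (m : ℝ) * (-(CR⁻¹ * τ ^ 2)) := by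
      field_simp
      ring
    rw [e2]
    exact hb
  have h1 : (1 - 2 * τ * ((m : ℝ) * τ / CR)) * (1 + s) ≤
      (1 - CR⁻¹ * τ ^ 2) ^ (2 * m) * (1 + s) := mul_le_mul_of_nonneg_right hb' (by linarith)
  refine le_trans ?_ h1
  set q := (m : ℝ) * τ / CR with hq
  have hq0 : 0 ≤ q := by positivity
  have h2 : 2 * τ * q ≤ 2 * τ * (1 / 2) := mul_le_mul_of_nonneg_left hmτ (by positivity)
  have h3 : (1 : ℝ) - τ ≤ 1 - 2 * τ * q := by linarith
  have h4 : (1 - τ) * (1 + s) ≤ (1 - 2 * τ * q) * (1 + s) :=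
    mul_le_mul_of_nonneg_right h3 (by linarith)
  refine le_trans ?_ h4
  rw [hs]
  nlinarith

end Pool.Agent.Lib.MP_89e789_an
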