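import Pool.Agent.Lib.MP_89e789_an.Basic

open Matrix

namespace Pool.Agent.Lib.MP_89e789_an

/-- One pair of consecutive levels: fine matrix `A`, coarse matrix `B`. -/
structure LevelPair {n k : ℕ} (A : Matrix (Fin n) (Fin n) ℝ) (B : Matrix (Fin k) (Fin k) ℝ)
    (P : Matrix (Fin n) (Fin k) ℝ) (R : Matrix (Fin k) (Fin n) ℝ) (r : ℝ) : Prop where
  hA : A.PosDef
  hB : B.PosDef
  hr : 0 < r
  hR : R = r • Pᵀ
  hG : R * A * P = (2 : ℝ) • B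

namespace LevelPair

variable {n k : ℕ} {A : Matrix (Fin n) (Fin n) ℝ} {B : Matrix (Fin k) (Fin k) ℝ}
  {P : Matrix (Fin n) (Fin k) ℝ} {R : Matrix (Fin k) (Fin n) ℝ} {r : ℝ}

lemma B_mul_Pi (h : LevelPair A B P R r) : B * (B⁻¹ * R * A) = R * A := by
  have hu : IsUnit B.det := (Matrix.isUnit_iff_isUnit_det B).mp h.hB.isUnit
  rw [Matrix.mul_assoc, Matrix.mul_nonsing_inv_cancel_left _ _ hu]

lemma Pi_mul_P (h : LevelPair A B P R r) : (B⁻¹ * R * A) * P = (2 : ℝ) • 1 := by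
  have hu : IsUnit B.det := (Matrix.isUnit_iff_isUnit_det B).mp h.hB.isUnit
  calc (B⁻¹ * R * A) * P = B⁻¹ * (R * A * P) := by simp only [Matrix.mul_assoc]
    _ = (2 : ℝ) • 1 := by rw [h.hG, Matrix.mul_smul, Matrix.nonsing_inv_mul _ hu]

/-- adjointness of `P` and `Π / r` -/
lemma adj (h : LevelPair A B P R r) (z : Fin k → ℝ) (v : Fin n → ℝ) :
    energyInner A (P *ᵥ z) v = r⁻¹ * energyInner B z ((B⁻¹ * R * A) *ᵥ v) := by
  unfold energyInner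
  rw [mulVec_mulVec, h.B_mul_Pi, h.hR]
  simp only [smul_mul, smul_mulVec, dotProduct_smul, smul_eq_mul]
  rw [← mul_assoc, inv_mul_cancel₀ h.hr.ne', one_mul, ← mulVec_mulVec, mulVec_transpose,
    dotProduct_comm z, ← dotProduct_mulVec, dotProduct_comm]

lemma S_eq (P : Matrix (Fin n) (Fin k) ℝ) (Q : Matrix (Fin k) (Fin n) ℝ) (v : Fin n → ℝ) :
    (1 - P * Q) *ᵥ v = v - P *ᵥ (Q *ᵥ v) := by
  rw [sub_mulVec, one_mulVec, mulVec_mulVec]

lemma T_symm (h : LevelPair A B P R r) (u v : Fin n → ℝ) :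
    energyInner A (P *ᵥ ((B⁻¹ * R * A) *ᵥ u)) v =
      energyInner A u (P *ᵥ ((B⁻¹ * R * A) *ᵥ v)) := by
  rw [h.adj, ei_symm h.hA.isHermitian u, h.adj, ei_symm h.hB.isHermitian]

lemma S_symm (h : LevelPair A B P R r) (u v : Fin n → ℝ) :
    energyInner A ((1 - P * (B⁻¹ * R * A)) *ᵥ u) v =
      energyInner A u ((1 - P * (B⁻¹ * R * A)) *ᵥ v) := by
  rw [S_eq, S_eq, ei_sub_left, ei_sub_right, h.T_symm]

lemma S_sq (h : LevelPair A B P R r) (u : Fin n → ℝ) :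
    (1 - P * (B⁻¹ * R * A)) *ᵥ ((1 - P * (B⁻¹ * R * A)) *ᵥ u) = u := by
  rw [mulVec_mulVec]
  have : (1 - P * (B⁻¹ * R * A)) * (1 - P * (B⁻¹ * R * A)) = 1 := by
    have h2 : P * (B⁻¹ * R * A) * (P * (B⁻¹ * R * A)) = (2 : ℝ) • (P * (B⁻¹ * R * A)) := by
      calc P * (B⁻¹ * R * A) * (P * (B⁻¹ * R * A)) = P * (((B⁻¹ * R * A) * P) * (B⁻¹ * R * A)) := by
            simp only [Matrix.mul_assoc]
        _ = _ := by rw [h.Pi_mul_P, Matrix.smul_mul, Matrix.one_mul, Matrix.mul_smul]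
    rw [mul_sub, sub_mul, sub_mul, h2, two_smul]
    simp
  rw [this, one_mulVec]

lemma S_isom (h : LevelPair A B P R r) (u v : Fin n → ℝ) :
    energyInner A ((1 - P * (B⁻¹ * R * A)) *ᵥ u) ((1 - P * (B⁻¹ * R * A)) *ᵥ v) =
      energyInner A u v := by
  rw [h.S_symm, h.S_sq]

/-- symmetry of the coarse-grid-corrected operator -/
lemma Y_symm (h : LevelPair A B P R r) {X : Matrix (Fin k) (Fin k) ℝ}
    (hX : ∀ z w, energyInner B (X *ᵥ z) w = energyInner B z (X *ᵥ w)) (u v : Fin n → ℝ) :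
    energyInner A ((1 - P * (1 - X) * (B⁻¹ * R * A)) *ᵥ u) v =
      energyInner A u ((1 - P * (1 - X) * (B⁻¹ * R * A)) *ᵥ v) := by
  have e : ∀ w : Fin n → ℝ, (1 - P * (1 - X) * (B⁻¹ * R * A)) *ᵥ w =
      w - P *ᵥ ((B⁻¹ * R * A) *ᵥ w - X *ᵥ ((B⁻¹ * R * A) *ᵥ w)) := by
    intro w
    rw [sub_mulVec, one_mulVec, Matrix.mul_assoc, ← mulVec_mulVec, ← mulVec_mulVec, sub_mulVec,
      one_mulVec]
  rw [e, e, ei_sub_left, ei_sub_right, h.adj, ei_symm h.hA.isHermitian u (P *ᵥ _), h.adj,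
    ei_sub_left, ei_sub_left, hX]
  rw [ei_symm h.hB.isHermitian ((B⁻¹ * R * A) *ᵥ u) ((B⁻¹ * R * A) *ᵥ v),
    ei_symm h.hB.isHermitian ((B⁻¹ * R * A) *ᵥ u) (X *ᵥ _)]

/-- the basic two-sided bound for the coarse-grid-corrected operator -/
lemma Y_bound (h : LevelPair A B P R r) {X : Matrix (Fin k) (Fin k) ℝ}
    (hX : ∀ z, |energyInner B (X *ᵥ z) z| ≤ (1 / 2) * energyInner B z z) (u : Fin n → ℝ) :
    |energyInner A ((1 - P * (1 - X) * (B⁻¹ * R * A)) *ᵥ u) u| ≤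
      (1 / 2) * energyInner A u u +
        (3 / 2) * |energyInner A ((1 - P * (B⁻¹ * R * A)) *ᵥ u) u| := by
  have e : (1 - P * (1 - X) * (B⁻¹ * R * A)) *ᵥ u =
      u - P *ᵥ ((B⁻¹ * R * A) *ᵥ u - X *ᵥ ((B⁻¹ * R * A) *ᵥ u)) := by
    rw [sub_mulVec, one_mulVec, Matrix.mul_assoc, ← mulVec_mulVec, ← mulVec_mulVec, sub_mulVec,
      one_mulVec]
  set z := (B⁻¹ * R * A) *ᵥ u with hz
  have h1 : energyInner A ((1 - P * (1 - X) * (B⁻¹ * R * A)) *ᵥ u) u =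
      energyInner A u u - r⁻¹ * energyInner B z z + r⁻¹ * energyInner B (X *ᵥ z) z := by
    rw [e, ei_sub_left, h.adj, ← hz, ei_sub_left]; ring
  have h2 : energyInner A ((1 - P * (B⁻¹ * R * A)) *ᵥ u) u =
      energyInner A u u - r⁻¹ * energyInner B z z := by
    rw [S_eq, ei_sub_left, h.adj, ← hz]
  have hr : 0 < r⁻¹ := inv_pos.mpr h.hr
  have h3 := hX z
  have h4 : |r⁻¹ * energyInner B (X *ᵥ z) z| ≤ r⁻¹ * ((1 / 2) * energyInner B z z) := by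
    rw [abs_mul, abs_of_pos hr]
    exact mul_le_mul_of_nonneg_left h3 hr.le
  rw [h1]
  set τ := r⁻¹ * energyInner B z z with hτ
  set ξ := r⁻¹ * energyInner B (X *ᵥ z) z with hξ
  set q := energyInner A u u with hq
  rw [h2]
  have h5 : |ξ| ≤ (1 / 2) * τ := by
    calc |ξ| ≤ r⁻¹ * ((1 / 2) * energyInner B z z) := h4
      _ = _ := by rw [hτ]; ring
  have h6 := abs_le.mp h5
  have h7 := le_abs_self (q - τ)
  have h8 := neg_abs_le (q - τ)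
  have hqn : 0 ≤ q := ei_nonneg h.hA u
  rw [abs_le]
  constructor <;> linarith [h6.1, h6.2]

end LevelPair

/-! ### the Richardson smoother -/

section smoother
variable {n : ℕ} {A : Matrix (Fin n) (Fin n) ℝ}

lemma K_mulVec (lam : ℝ) (u : Fin n → ℝ) :
    (1 - lam⁻¹ • A) *ᵥ u = u - lam⁻¹ • (A *ᵥ u) := by
  rw [sub_mulVec, one_mulVec, smul_mulVec]

lemma K_symm (hA : A.PosDef) (lam : ℝ) (u v : Fin n → ℝ) :
    energyInner A ((1 - lam⁻¹ • A) *ᵥ u) v = energyInner A u ((1 - lam⁻¹ • A) *ᵥ v) := by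
  have h1 : energyInner A (A *ᵥ u) v = energyInner A u (A *ᵥ v) := by
    have h2 := ei_symm hA.isHermitian u (A *ᵥ v)
    rw [h2]
    unfold energyInner
    rw [dotProduct_comm]
  rw [K_mulVec, K_mulVec, ei_sub_left, ei_sub_right, ei_smul_left, ei_smul_right, h1]

lemma Kpow_symm (hA : A.PosDef) (lam : ℝ) (m : ℕ) (u v : Fin n → ℝ) :
    energyInner A ((1 - lam⁻¹ • A) ^ m *ᵥ u) v =
      energyInner A u ((1 - lam⁻¹ • A) ^ m *ᵥ v) := by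
  induction m generalizing u v with
  | zero => simp
  | succ m ih =>
    rw [pow_succ, ← mulVec_mulVec, ih, K_symm hA, mulVec_mulVec, ← pow_succ', pow_succ]

lemma K_energy_le (hA : A.PosDef) {lam : ℝ} (hlam : rho A ≤ lam) (hpos : 0 < lam)
    (u : Fin n → ℝ) :
    energyInner A ((1 - lam⁻¹ • A) *ᵥ u) ((1 - lam⁻¹ • A) *ᵥ u) ≤
      energyInner A u u - lam⁻¹ * ((A *ᵥ u) ⬝ᵥ (A *ᵥ u)) := by
  have h3 : energyInner A (A *ᵥ u) (A *ᵥ u) ≤ lam * ((A *ᵥ u) ⬝ᵥ (A *ᵥ u)) :=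
    (dot_mulVec_le_rho hA.isHermitian _).trans
      (mul_le_mul_of_nonneg_right hlam (dot_self_nonneg _))
  have h4 : energyInner A (A *ᵥ u) u = (A *ᵥ u) ⬝ᵥ (A *ᵥ u) := rfl
  have h5 : energyInner A u (A *ᵥ u) = (A *ᵥ u) ⬝ᵥ (A *ᵥ u) := by
    rw [ei_symm hA.isHermitian, h4]
  rw [K_mulVec, ei_sub_left, ei_sub_right, ei_sub_right, ei_smul_left, ei_smul_left,
    ei_smul_right, h4, ei_smul_right, h5]
  have hinv : 0 < lam⁻¹ := inv_pos.mpr hpos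
  have h6 : lam⁻¹ * (lam⁻¹ * energyInner A (A *ᵥ u) (A *ᵥ u)) ≤
      lam⁻¹ * ((A *ᵥ u) ⬝ᵥ (A *ᵥ u)) := by
    apply mul_le_mul_of_nonneg_left _ hinv.le
    rw [inv_mul_le_iff₀ hpos]
    exact h3
  linarith

lemma K_eucl_le (hA : A.PosDef) {lam : ℝ} (hlam : rho A ≤ lam) (hpos : 0 < lam)
    (w : Fin n → ℝ) :
    ((1 - lam⁻¹ • A) *ᵥ w) ⬝ᵥ ((1 - lam⁻¹ • A) *ᵥ w) ≤ w ⬝ᵥ w := by
  have h1 : (A *ᵥ w) ⬝ᵥ (A *ᵥ w) ≤ lam * (w ⬝ᵥ (A *ᵥ w)) :=
    (dot_mulVec_self_le hA w).trans (mul_le_mul_of_nonneg_right hlam (ei_nonneg hA w))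
  rw [K_mulVec, sub_dotProduct, dotProduct_sub, dotProduct_sub, smul_dotProduct,
    smul_dotProduct, dotProduct_smul, dotProduct_smul, dotProduct_comm (A *ᵥ w) w]
  simp only [smul_eq_mul]
  have hinv : 0 < lam⁻¹ := inv_pos.mpr hpos
  have h6 : lam⁻¹ * (lam⁻¹ * ((A *ᵥ w) ⬝ᵥ (A *ᵥ w))) ≤ lam⁻¹ * (w ⬝ᵥ (A *ᵥ w)) := by
    apply mul_le_mul_of_nonneg_left _ hinv.le
    rw [inv_mul_le_iff₀ hpos]
    exact h1
  have h7 : 0 ≤ lam⁻¹ * (w ⬝ᵥ (A *ᵥ w)) := mul_nonneg hinv.le (ei_nonneg hA w)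
  linarith

lemma A_comm_K (lam : ℝ) (m : ℕ) (u : Fin n → ℝ) :
    A *ᵥ ((1 - lam⁻¹ • A) ^ m *ᵥ u) = (1 - lam⁻¹ • A) ^ m *ᵥ (A *ᵥ u) := by
  have hc : Commute A ((1 - lam⁻¹ • A) ^ m) := by
    apply Commute.pow_right
    exact (Commute.one_right A).sub_right ((Commute.refl A).smul_right _)
  rw [mulVec_mulVec, mulVec_mulVec, hc.eq]

/-- the smoothing inequality -/
lemma smoothing (hA : A.PosDef) {lam : ℝ} (hlam : rho A ≤ lam) (hpos : 0 < lam) (m : ℕ)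
    (v : Fin n → ℝ) :
    energyInner A ((1 - lam⁻¹ • A) ^ m *ᵥ v) ((1 - lam⁻¹ • A) ^ m *ᵥ v) +
      m * lam⁻¹ * ((A *ᵥ ((1 - lam⁻¹ • A) ^ m *ᵥ v)) ⬝ᵥ
        (A *ᵥ ((1 - lam⁻¹ • A) ^ m *ᵥ v))) ≤ energyInner A v v := by
  induction m with
  | zero => simp
  | succ m ih =>
    set w := (1 - lam⁻¹ • A) ^ m *ᵥ v with hw
    have e : (1 - lam⁻¹ • A) ^ (m + 1) *ᵥ v = (1 - lam⁻¹ • A) *ᵥ w := by
      rw [pow_succ', ← mulVec_mulVec]
    rw [e]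
    have h1 := K_energy_le hA hlam hpos w
    have h2 : (A *ᵥ ((1 - lam⁻¹ • A) *ᵥ w)) ⬝ᵥ (A *ᵥ ((1 - lam⁻¹ • A) *ᵥ w)) ≤
        (A *ᵥ w) ⬝ᵥ (A *ᵥ w) := by
      have := A_comm_K (A := A) lam 1 w
      rw [pow_one] at this
      rw [this]
      exact K_eucl_le hA hlam hpos _
    have hinv : 0 < lam⁻¹ := inv_pos.mpr hpos
    have h3 : ((m + 1 : ℕ) : ℝ) * lam⁻¹ *
        ((A *ᵥ ((1 - lam⁻¹ • A) *ᵥ w)) ⬝ᵥ (A *ᵥ ((1 - lam⁻¹ • A) *ᵥ w))) ≤
        ((m + 1 : ℕ) : ℝ) * lam⁻¹ * ((A *ᵥ w) ⬝ᵥ (A *ᵥ w)) :=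
      mul_le_mul_of_nonneg_left h2 (by positivity)
    push_cast at h3 ⊢
    have h4 : ((m : ℝ) + 1) * lam⁻¹ * ((A *ᵥ w) ⬝ᵥ (A *ᵥ w)) =
        m * lam⁻¹ * ((A *ᵥ w) ⬝ᵥ (A *ᵥ w)) + lam⁻¹ * ((A *ᵥ w) ⬝ᵥ (A *ᵥ w)) := by ring
    linarith

end smoother

/-- norm bound from the quadratic form bound, for operators symmetric in the energy product -/
lemma norm_le_of_form {n : ℕ} {A E : Matrix (Fin n) (Fin n) ℝ} (hA : A.PosDef)
    (hE : ∀ u v, energyInner A (E *ᵥ u) v = energyInner A u (E *ᵥ v))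
    (hb : ∀ v, |energyInner A (E *ᵥ v) v| ≤ (1 / 2) * energyInner A v v) (v : Fin n → ℝ) :
    energyNorm A (E *ᵥ v) ≤ (1 / 2) * energyNorm A v := by
  set N := energyNorm A v with hN
  set M := energyNorm A (E *ᵥ v) with hM
  have hN2 : N ^ 2 = energyInner A v v := energyNorm_sq hA v
  have hM2 : M ^ 2 = energyInner A (E *ᵥ v) (E *ᵥ v) := energyNorm_sq hA _
  have hN0 : 0 ≤ N := energyNorm_nonneg _ _
  have hM0 : 0 ≤ M := energyNorm_nonneg _ _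
  by_cases hMz : M = 0
  · rw [hMz]; positivity
  have hMpos : 0 < M := lt_of_le_of_ne hM0 (Ne.symm hMz)
  -- use `w = (N / M) • E v`
  set w := E *ᵥ v with hw
  have key : ∀ s : ℝ, 4 * (s * M ^ 2) ≤ N ^ 2 + s ^ 2 * M ^ 2 := by
    intro s
    have h1 := hb (v + s • w)
    have h2 := hb (v - s • w)
    have e1 : energyInner A (E *ᵥ (v + s • w)) (v + s • w) =
        energyInner A w v + 2 * (s * M ^ 2) + s ^ 2 * energyInner A (E *ᵥ w) w := by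
      rw [mulVec_add, mulVec_smul, ei_add_left, ei_add_right, ei_add_right, ei_smul_left,
        ei_smul_left, ei_smul_right, ei_smul_right, ← hw, hE w v, ← hw, hM2]
      ring
    have e2 : energyInner A (E *ᵥ (v - s • w)) (v - s • w) =
        energyInner A w v - 2 * (s * M ^ 2) + s ^ 2 * energyInner A (E *ᵥ w) w := by
      rw [mulVec_sub, mulVec_smul, ei_sub_left, ei_sub_right, ei_sub_right, ei_smul_left,
        ei_smul_left, ei_smul_right, ei_smul_right, ← hw, hE w v, ← hw, hM2]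
      ring
    have e3 : energyInner A (v + s • w) (v + s • w) + energyInner A (v - s • w) (v - s • w) =
        2 * N ^ 2 + 2 * (s ^ 2 * M ^ 2) := by
      rw [ei_add_left, ei_add_right, ei_add_right, ei_sub_left, ei_sub_right, ei_sub_right,
        ei_smul_left, ei_smul_left, ei_smul_right, ei_smul_right, hN2, hM2]
      ring
    rw [e1] at h1
    rw [e2] at h2
    have h1' := (abs_le.mp h1).2
    have h2' := (abs_le.mp h2).1
    linarith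
  have h := key (N / M)
  have e1 : N / M * M ^ 2 = N * M := by field_simp
  have e2 : (N / M) ^ 2 * M ^ 2 = N ^ 2 := by field_simp
  rw [e1, e2] at h
  by_cases hNz : N = 0
  · exfalso
    have h0 := key 1
    have h1 : (1 : ℝ) ^ 2 * M ^ 2 = M ^ 2 := by ring
    rw [hNz, h1] at h0
    nlinarith [sq_nonneg M, pow_pos hMpos 2]
  · have hNpos : 0 < N := lt_of_le_of_ne hN0 (Ne.symm hNz)
    have : 4 * M ≤ 2 * N := by
      have : N * (4 * M) ≤ N * (2 * N) := by nlinarith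
      exact le_of_mul_le_mul_left this hNpos
    linarith

end Pool.Agent.Lib.MP_89e789_an
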