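import Pool.Agent.Lib.MP_89e789_an.Example

open Matrix

namespace Pool.Agent.Lib.MP_89e789_an

lemma critical_nonneg {α : ℝ} (hα : α ≤ 1 / 2) : 0 ≤ critical α := by
  unfold critical
  apply mul_nonneg (div_nonneg (by norm_num) (by linarith))
  exact Real.rpow_nonneg (div_nonneg (by linarith) (by linarith)) _

lemma critical_half : critical (1 / 2) = 4 := by
  unfold critical
  norm_num

/-- `4 x² y² ≤ critical α · (y²)^{2α} (x² + y²)^{2 - 2α}`. -/
lemma amgm {α : ℝ} (hα : 0 < α) (hα2 : α ≤ 1 / 2) {X Y : ℝ} (hX : 0 ≤ X) (hY : 0 ≤ Y) :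
    4 * X * Y ≤ critical α * Y ^ (2 * α) * (X + Y) ^ (2 - 2 * α) := by
  rcases hα2.lt_or_eq with h | h
  · -- α < 1/2
    set θ := (1 - 2 * α) / (2 - 2 * α) with hθ
    have hp : 0 < 2 - 2 * α := by linarith
    have h1α : (1 - α) ≠ 0 := by linarith
    have hθ0 : 0 < θ := div_pos (by linarith) hp
    have h1θ : 1 - θ = 1 / (2 - 2 * α) := by rw [hθ]; field_simp; ring
    have h1θ0 : 0 < 1 - θ := by rw [h1θ]; positivity
    have hag := Real.geom_mean_le_arith_mean2_weighted (w₁ := 1 - θ) (w₂ := θ)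
      (p₁ := X / (1 - θ)) (p₂ := Y / θ) h1θ0.le hθ0.le (by positivity) (by positivity) (by ring)
    have e1 : (1 - θ) * (X / (1 - θ)) + θ * (Y / θ) = X + Y := by field_simp
    rw [e1] at hag
    have hL : 0 ≤ (X / (1 - θ)) ^ (1 - θ) * (Y / θ) ^ θ :=
      mul_nonneg (Real.rpow_nonneg (by positivity) _) (Real.rpow_nonneg (by positivity) _)
    have h2 := Real.rpow_le_rpow hL hag hp.le
    have e2 : ((X / (1 - θ)) ^ (1 - θ) * (Y / θ) ^ θ) ^ (2 - 2 * α) =
        (X * (2 - 2 * α)) * (Y / θ) ^ (1 - 2 * α) := by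
      rw [Real.mul_rpow (Real.rpow_nonneg (by positivity) _) (Real.rpow_nonneg (by positivity) _),
        ← Real.rpow_mul (by positivity), ← Real.rpow_mul (by positivity)]
      have e3 : (1 - θ) * (2 - 2 * α) = 1 := by rw [h1θ]; field_simp
      have e4 : θ * (2 - 2 * α) = 1 - 2 * α := by rw [hθ]; field_simp
      rw [e3, e4, Real.rpow_one, h1θ]
      congr 1
      field_simp
    rw [e2] at h2
    have hcrit : critical α = 2 / (1 - α) * θ ^ (1 - 2 * α) := rfl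
    have hθp : 0 < θ ^ (1 - 2 * α) := Real.rpow_pos_of_pos hθ0 _
    have h3 : critical α * Y ^ (2 * α) * ((X * (2 - 2 * α)) * (Y / θ) ^ (1 - 2 * α)) =
        4 * X * Y := by
      rw [hcrit, Real.div_rpow hY hθ0.le]
      have e5 : Y ^ (2 * α) * Y ^ (1 - 2 * α) = Y := by
        rw [← Real.rpow_add_of_nonneg hY (by positivity) (by linarith)]
        simp
      calc 2 / (1 - α) * θ ^ (1 - 2 * α) * Y ^ (2 * α) *
            (X * (2 - 2 * α) * (Y ^ (1 - 2 * α) / θ ^ (1 - 2 * α)))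
          = 4 * X * (Y ^ (2 * α) * Y ^ (1 - 2 * α)) := by field_simp; ring
        _ = 4 * X * Y := by rw [e5]
    rw [← h3]
    apply mul_le_mul_of_nonneg_left h2
    exact mul_nonneg (critical_nonneg hα2) (Real.rpow_nonneg hY _)
  · subst h
    rw [critical_half]
    have e1 : (2 : ℝ) * (1 / 2) = 1 := by norm_num
    have e2 : (2 : ℝ) - 1 = 1 := by norm_num
    rw [e1, e2, Real.rpow_one, Real.rpow_one]
    nlinarith [mul_nonneg hY hY]

/-- `2 x y ≤ √(critical α) (y²)^α (x² + y²)^{1 - α}`. -/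
lemma amgm_sqrt {α : ℝ} (hα : 0 < α) (hα2 : α ≤ 1 / 2) {x y : ℝ} (hx : 0 ≤ x) (hy : 0 ≤ y) :
    2 * x * y ≤ Real.sqrt (critical α) * (y ^ 2) ^ α * (x ^ 2 + y ^ 2) ^ (1 - α) := by
  apply le_of_sq_le_sq _ (mul_nonneg (mul_nonneg (Real.sqrt_nonneg _)
    (Real.rpow_nonneg (by positivity) _)) (Real.rpow_nonneg (by positivity) _))
  have h := amgm hα hα2 (sq_nonneg x) (sq_nonneg y)
  have e1 : α * ((2 : ℕ) : ℝ) = 2 * α := by push_cast; ring
  have e2 : (1 - α) * ((2 : ℕ) : ℝ) = 2 - 2 * α := by push_cast; ring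
  have e3 : (Real.sqrt (critical α) * (y ^ 2) ^ α * (x ^ 2 + y ^ 2) ^ (1 - α)) ^ 2 =
      critical α * (y ^ 2) ^ (2 * α) * (x ^ 2 + y ^ 2) ^ (2 - 2 * α) := by
    rw [mul_pow, mul_pow, Real.sq_sqrt (critical_nonneg hα2), ← Real.rpow_natCast ((y ^ 2) ^ α),
      ← Real.rpow_natCast ((x ^ 2 + y ^ 2) ^ (1 - α)), ← Real.rpow_mul (by positivity),
      ← Real.rpow_mul (by positivity), e1, e2]
  rw [e3]
  calc (2 * x * y) ^ 2 = 4 * x ^ 2 * y ^ 2 := by ring
    _ ≤ _ := h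

/-- Divergence for every `m` in the supercritical range. -/
theorem no_threshold {CR C α : ℝ} (hCR : 1 ≤ CR) (hC : 0 < C) (hα : 0 < α) (hα2 : α ≤ 1 / 2)
    (hcrit : critical α < C ^ (4 * α)) (m : ℕ) (M : ℝ) :
    ∃ (H : Hierarchy) (L : ℕ), H.Admissible L CR C α ∧
      ∃ v : Fin (H.n L) → ℝ, M * energyNorm (H.A L) v < energyNorm (H.A L) (H.E m 1 L *ᵥ v) := by
  set κ := C ^ (2 * α) with hκ
  have hκ0 : 0 < κ := Real.rpow_pos_of_pos hC _
  set c0 := Real.sqrt (critical α) with hc0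
  have hc0n : 0 ≤ c0 := Real.sqrt_nonneg _
  have hκc : c0 < κ := by
    apply lt_of_pow_lt_pow_left₀ 2 hκ0.le
    rw [Real.sq_sqrt (critical_nonneg hα2), hκ, ← Real.rpow_natCast, ← Real.rpow_mul hC.le]
    have : 2 * α * ((2 : ℕ) : ℝ) = 4 * α := by push_cast; ring
    rwa [this]
  set η := κ - c0 with hη
  have hη0 : 0 < η := by linarith
  set μ := min 1 η with hμ
  have hμ0 : 0 < μ := lt_min one_pos hη0
  have hμ1 : μ ≤ 1 := min_le_left _ _
  have hμη : μ ≤ η := min_le_right _ _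
  have hm0 : (0 : ℝ) ≤ m := Nat.cast_nonneg m
  set τ := μ / (4 * (m + 1)) with hτdef
  have hτ : 0 < τ := by positivity
  have hτμ : 4 * (m + 1) * τ = μ := by rw [hτdef]; field_simp
  have hτ1 : τ ≤ 1 := by
    have : τ ≤ 4 * (m + 1) * τ := by nlinarith
    linarith
  set s := 4 * (m + 1) * τ ^ 2 with hs
  have hs_eq : s = μ * τ := by rw [hs, ← hτμ]; ring
  have hs0 : 0 < s := by rw [hs_eq]; positivity
  have hs1 : s ≤ 1 := by
    rw [hs_eq]
    calc μ * τ ≤ 1 * 1 := mul_le_mul hμ1 hτ1 hτ.le zero_le_one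
      _ = 1 := one_mul 1
  have hτα : τ ≤ (τ ^ 2) ^ α := by
    have e1 : (τ ^ 2) ^ α = τ ^ (2 * α) := by
      rw [← Real.rpow_natCast, ← Real.rpow_mul hτ.le]; norm_num
    rw [e1]
    calc τ = τ ^ (1 : ℝ) := (Real.rpow_one τ).symm
      _ ≤ τ ^ (2 * α) := Real.rpow_le_rpow_of_exponent_ge hτ hτ1 (by linarith)
  have hsη : s ≤ η * (τ ^ 2) ^ α := by
    rw [hs_eq]
    exact mul_le_mul hμη hτα hτ.le hη0.le
  have H : ∀ x y : ℝ, 0 ≤ x → 0 ≤ y → s * (x ^ 2 + y ^ 2) + 2 * x * y ≤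
      C ^ (2 * α) * (τ ^ 2 * x ^ 2 + y ^ 2) ^ α * (x ^ 2 + y ^ 2) ^ (1 - α) := by
    intro x y hx hy
    have hT : 0 ≤ x ^ 2 + y ^ 2 := by positivity
    have hT' : 0 ≤ (x ^ 2 + y ^ 2) ^ (1 - α) := Real.rpow_nonneg hT _
    have h1 : 2 * x * y ≤ c0 * (τ ^ 2 * x ^ 2 + y ^ 2) ^ α * (x ^ 2 + y ^ 2) ^ (1 - α) := by
      refine (amgm_sqrt hα hα2 hx hy).trans ?_
      apply mul_le_mul_of_nonneg_right _ hT'
      apply mul_le_mul_of_nonneg_left _ hc0n
      apply Real.rpow_le_rpow (by positivity) _ hα.le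
      have : 0 ≤ τ ^ 2 * x ^ 2 := by positivity
      linarith
    have h2 : s * (x ^ 2 + y ^ 2) ≤
        η * (τ ^ 2 * x ^ 2 + y ^ 2) ^ α * (x ^ 2 + y ^ 2) ^ (1 - α) := by
      have e1 : (x ^ 2 + y ^ 2) ^ α * (x ^ 2 + y ^ 2) ^ (1 - α) = x ^ 2 + y ^ 2 := by
        rw [← Real.rpow_add_of_nonneg hT hα.le (by linarith)]; simp
      calc s * (x ^ 2 + y ^ 2) ≤ η * (τ ^ 2) ^ α * (x ^ 2 + y ^ 2) :=
            mul_le_mul_of_nonneg_right hsη hT
        _ = η * (τ ^ 2) ^ α * ((x ^ 2 + y ^ 2) ^ α * (x ^ 2 + y ^ 2) ^ (1 - α)) := by rw [e1]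
        _ = η * (τ ^ 2 * (x ^ 2 + y ^ 2)) ^ α * (x ^ 2 + y ^ 2) ^ (1 - α) := by
            rw [Real.mul_rpow (by positivity) hT]; ring
        _ ≤ _ := by
            apply mul_le_mul_of_nonneg_right _ hT'
            apply mul_le_mul_of_nonneg_left _ hη0.le
            apply Real.rpow_le_rpow (by positivity) _ hα.le
            have : τ ^ 2 * y ^ 2 ≤ 1 * y ^ 2 :=
              mul_le_mul_of_nonneg_right (pow_le_one₀ hτ.le hτ1) (sq_nonneg y)
            linarith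
    have e3 : C ^ (2 * α) * (τ ^ 2 * x ^ 2 + y ^ 2) ^ α * (x ^ 2 + y ^ 2) ^ (1 - α) =
        c0 * (τ ^ 2 * x ^ 2 + y ^ 2) ^ α * (x ^ 2 + y ^ 2) ^ (1 - α) +
        η * (τ ^ 2 * x ^ 2 + y ^ 2) ^ α * (x ^ 2 + y ^ 2) ^ (1 - α) := by
      rw [← hκ, hη]; ring
    rw [e3]
    linarith
  refine diverges hτ hτ1 hs0 hs1 hC hα H le_rfl hCR m ?_ M
  -- growth condition
  rw [inv_one, one_mul]
  have hτ2 : 0 < τ ^ 2 := by positivity
  have hb : 1 + ((2 * m : ℕ) : ℝ) * (-τ ^ 2) ≤ (1 + (-τ ^ 2)) ^ (2 * m) := by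
    apply one_add_mul_le_pow
    have := pow_le_one₀ (n := 2) hτ.le hτ1
    linarith
  have hb' : 1 - 2 * m * τ ^ 2 ≤ (1 - τ ^ 2) ^ (2 * m) := by
    have e : (1 + (-τ ^ 2)) = 1 - τ ^ 2 := by ring
    rw [e] at hb
    push_cast at hb
    linarith
  have h1 : (1 - 2 * m * τ ^ 2) * (1 + s) ≤ (1 - τ ^ 2) ^ (2 * m) * (1 + s) :=
    mul_le_mul_of_nonneg_right hb' (by linarith)
  refine le_trans ?_ h1
  have h2 : (m : ℝ) * (4 * (m + 1) * τ) ≤ m := by
    rw [hτμ]; nlinarith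
  have h3 : 8 * m * (m + 1) * τ ^ 2 ≤ 1 := by
    have e : 8 * (m : ℝ) * (m + 1) * τ ^ 2 = 2 * τ * (m * (4 * (m + 1) * τ)) := by ring
    rw [e]
    have h4 : 2 * τ * ((m : ℝ) * (4 * (m + 1) * τ)) ≤ 2 * τ * m :=
      mul_le_mul_of_nonneg_left h2 (by positivity)
    have h5 : 2 * τ * m ≤ 4 * (m + 1) * τ := by nlinarith
    linarith
  have e : (1 - 2 * m * τ ^ 2) * (1 + s) - 1 =
      τ ^ 2 * (4 * (m + 1) - 2 * m - 8 * m * (m + 1) * τ ^ 2) := by rw [hs]; ring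
  have h6 : 0 ≤ τ ^ 2 * (4 * (m + 1) - 2 * m - 8 * m * (m + 1) * τ ^ 2) := by
    apply mul_nonneg hτ2.le
    linarith
  linarith

/-- Contraction for all large `m` from a lower bound parameter. -/
theorem threshold_of_eps {CR C α ε t : ℝ} (hα0 : 0 < α) (hα1 : α ≤ 1) (hC : 0 < C)
    (hε : 0 < ε) (ht : 0 < t)
    (hφ : (1 + t ^ 2) * (C ^ (2 * α) * ε ^ (2 * α)) + C ^ (2 * α) * (ε + t) ^ (2 * α) *
      (Real.sqrt (1 + t ^ 2 + 2 * t * (C ^ (2 * α) * ε ^ (2 * α)))) ^ (2 * (1 - α)) < 2 * t)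
    (m : ℕ) (hm : 3 * (C ^ (2 * α) / ε ^ (2 * (1 - α))) * CR ≤ m)
    (H : Hierarchy) (L : ℕ) (hH : H.Admissible L CR C α) (v : Fin (H.n L) → ℝ) :
    energyNorm (H.A L) (H.E m 1 L *ᵥ v) ≤ (1 / 2) * energyNorm (H.A L) v := by
  obtain ⟨h1, h2, h3, h4⟩ := hH
  obtain ⟨r, hr⟩ := Hierarchy.levelPair h1 h2
  refine Hierarchy.contraction h1 h2 h3 (G := C ^ (2 * α) / ε ^ (2 * (1 - α))) ?_
    (div_nonneg (Real.rpow_nonneg hC.le _) (Real.rpow_nonneg hε.le _)) hm v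
  intro l hl w
  have hρ : 0 < rho (H.A (l + 1)) := rho_pos (hr l hl).hA (h1.2.1 (l + 1) hl).1
  exact form_of_lower (hr l hl) hρ hα0 hα1 hC hε (h4 l hl)
    (lower_bound (hr l hl) hρ hα0 hα1 hC hε ht (h4 l hl) hφ) w

open Filter Topology in
/-- The limiting condition suffices. -/
theorem threshold_of_t {CR C α t : ℝ} (hα0 : 0 < α) (hα1 : α ≤ 1) (hC : 0 < C) (ht : 0 < t)
    (hlim : C ^ (2 * α) * t ^ (2 * α) * (Real.sqrt (1 + t ^ 2)) ^ (2 * (1 - α)) < 2 * t) :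
    ∃ m₀ : ℕ, ∀ m : ℕ, m₀ ≤ m → UniformVCycleContraction CR C α m := by
  set φ : ℝ → ℝ := fun ε => (1 + t ^ 2) * (C ^ (2 * α) * ε ^ (2 * α)) +
    C ^ (2 * α) * (ε + t) ^ (2 * α) *
      (Real.sqrt (1 + t ^ 2 + 2 * t * (C ^ (2 * α) * ε ^ (2 * α)))) ^ (2 * (1 - α)) with hφ
  have hc1 : Continuous fun ε : ℝ => ε ^ (2 * α) := Real.continuous_rpow_const (by positivity)
  have hc2 : Continuous fun ε : ℝ => ε ^ (2 * (1 - α)) :=
    Real.continuous_rpow_const (by linarith)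
  have hcont : Continuous φ := by
    have h1 : Continuous fun ε : ℝ => (ε + t) ^ (2 * α) := hc1.comp (by fun_prop)
    have h2 : Continuous fun ε : ℝ =>
        (Real.sqrt (1 + t ^ 2 + 2 * t * (C ^ (2 * α) * ε ^ (2 * α)))) ^ (2 * (1 - α)) := by
      apply hc2.comp
      apply Real.continuous_sqrt.comp
      fun_prop
    rw [hφ]
    fun_prop
  have h0 : φ 0 = C ^ (2 * α) * t ^ (2 * α) * (Real.sqrt (1 + t ^ 2)) ^ (2 * (1 - α)) := by
    simp only [hφ]
    rw [Real.zero_rpow (by positivity)]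
    simp
  have hlt : φ 0 < 2 * t := by rw [h0]; exact hlim
  have hev : ∀ᶠ ε in 𝓝 (0 : ℝ), φ ε < 2 * t := (hcont.tendsto 0).eventually (gt_mem_nhds hlt)
  obtain ⟨δ, hδ, hball⟩ := Metric.eventually_nhds_iff.mp hev
  have hε : φ (δ / 2) < 2 * t := by
    apply hball
    rw [Real.dist_eq, sub_zero, abs_of_pos (by positivity)]
    linarith
  obtain ⟨m₀, hm₀⟩ := exists_nat_ge (3 * (C ^ (2 * α) / (δ / 2) ^ (2 * (1 - α))) * CR)
  refine ⟨m₀, fun m hm => ⟨1 / 2, by norm_num, fun H L hH v => ?_⟩⟩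
  refine threshold_of_eps hα0 hα1 hC (by positivity) ht hε m (hm₀.trans ?_) H L hH v
  exact_mod_cast hm

/-- Existence of the auxiliary parameter in the subcritical range. -/
lemma exists_t {C α : ℝ} (hα0 : 0 < α) (hα1 : α ≤ 1) (hC : 0 < C)
    (h : 1 / 2 < α ∨ C ^ (4 * α) < critical α) :
    ∃ t : ℝ, 0 < t ∧
      C ^ (2 * α) * t ^ (2 * α) * (Real.sqrt (1 + t ^ 2)) ^ (2 * (1 - α)) < 2 * t := by
  have hc : 0 < C ^ (2 * α) := Real.rpow_pos_of_pos hC _
  by_cases hα : 1 / 2 < α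
  · -- `t = min 1 (1 / (2 (1 + c)))^{1/(2α - 1)}`
    set c := C ^ (2 * α) with hcdef
    have h21 : 0 < 2 * α - 1 := by linarith
    set u := 1 / (2 * (1 + c)) with hu
    have hu0 : 0 < u := by positivity
    have hu1 : u ≤ 1 := by
      rw [hu, div_le_one (by positivity)]
      linarith
    set t := u ^ (1 / (2 * α - 1)) with ht
    have ht0 : 0 < t := Real.rpow_pos_of_pos hu0 _
    have ht1 : t ≤ 1 := Real.rpow_le_one hu0.le hu1 (by positivity)
    refine ⟨t, ht0, ?_⟩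
    have h1 : (Real.sqrt (1 + t ^ 2)) ^ (2 * (1 - α)) ≤ 2 := by
      have hs : Real.sqrt (1 + t ^ 2) ≤ 2 := by
        rw [Real.sqrt_le_left (by norm_num)]
        have := pow_le_one₀ (n := 2) ht0.le ht1
        linarith
      have hs1 : 1 ≤ Real.sqrt (1 + t ^ 2) := by
        rw [Real.one_le_sqrt]
        have := sq_nonneg t
        linarith
      calc (Real.sqrt (1 + t ^ 2)) ^ (2 * (1 - α)) ≤ (Real.sqrt (1 + t ^ 2)) ^ (1 : ℝ) :=
            Real.rpow_le_rpow_of_exponent_le hs1 (by linarith)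
        _ ≤ 2 := by rw [Real.rpow_one]; exact hs
    have h2 : t ^ (2 * α) = u * t := by
      have e : t ^ (2 * α) = t ^ (2 * α - 1) * t := by
        rw [← Real.rpow_add_one ht0.ne']
        congr 1; ring
      rw [e, ht, ← Real.rpow_mul hu0.le, one_div_mul_cancel h21.ne', Real.rpow_one]
    rw [h2]
    have h3 : 0 ≤ c * (u * t) := by positivity
    calc c * (u * t) * (Real.sqrt (1 + t ^ 2)) ^ (2 * (1 - α)) ≤ c * (u * t) * 2 :=
          mul_le_mul_of_nonneg_left h1 h3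
      _ = (c / (1 + c)) * t := by rw [hu]; field_simp
      _ < 2 * t := by
          apply mul_lt_mul_of_pos_right _ ht0
          rw [div_lt_iff₀ (by positivity)]
          linarith
  · push Not at hα
    have hcr : C ^ (4 * α) < critical α := by
      rcases h with h | h
      · linarith
      · exact h
    have hC4 : C ^ (4 * α) = (C ^ (2 * α)) ^ 2 := by
      rw [← Real.rpow_natCast, ← Real.rpow_mul hC.le]
      congr 1; push_cast; ring
    rcases hα.lt_or_eq with hlt | heq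
    · set p := 1 - 2 * α with hp
      have hp0 : 0 < p := by linarith
      set t := Real.sqrt p with ht
      have ht0 : 0 < t := Real.sqrt_pos.mpr hp0
      have ht2 : t ^ 2 = p := Real.sq_sqrt hp0.le
      refine ⟨t, ht0, ?_⟩
      apply lt_of_pow_lt_pow_left₀ 2 (by positivity)
      have hq : 0 < 2 - 2 * α := by linarith
      have e1 : (C ^ (2 * α) * t ^ (2 * α) * (Real.sqrt (1 + t ^ 2)) ^ (2 * (1 - α))) ^ 2 =
          C ^ (4 * α) * (p ^ (2 * α) * (2 - 2 * α) ^ (2 - 2 * α)) := by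
        rw [mul_pow, mul_pow, ← hC4, ← Real.rpow_natCast (t ^ (2 * α)), ← Real.rpow_mul ht0.le,
          mul_comm (2 * α), Real.rpow_mul ht0.le, Real.rpow_natCast, ht2,
          ← Real.rpow_natCast (Real.sqrt (1 + p) ^ (2 * (1 - α))),
          ← Real.rpow_mul (Real.sqrt_nonneg _), mul_comm (2 * (1 - α)),
          Real.rpow_mul (Real.sqrt_nonneg _), Real.rpow_natCast, Real.sq_sqrt (by linarith)]
        have e2 : 1 + p = 2 - 2 * α := by rw [hp]; ring
        have e3 : 2 * (1 - α) = 2 - 2 * α := by ring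
        rw [e2, e3]
        ring
      rw [e1]
      have hK : 0 < p ^ (2 * α) * (2 - 2 * α) ^ (2 - 2 * α) :=
        mul_pos (Real.rpow_pos_of_pos hp0 _) (Real.rpow_pos_of_pos hq _)
      have e4 : critical α * (p ^ (2 * α) * (2 - 2 * α) ^ (2 - 2 * α)) = (2 * t) ^ 2 := by
        have a1 : p ^ (1 - 2 * α) * p ^ (2 * α) = p := by
          rw [← Real.rpow_add hp0]; simp
        have a2 : (2 - 2 * α) ^ (2 - 2 * α) = (2 - 2 * α) * (2 - 2 * α) ^ (1 - 2 * α) := by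
          have a0 : (2 - 2 * α) ^ (2 - 2 * α) = (2 - 2 * α) ^ ((1 - 2 * α) + 1) := by
            congr 1; ring
          rw [a0, Real.rpow_add_one hq.ne', mul_comm]
        have a3 : (2 - 2 * α) ^ (1 - 2 * α) ≠ 0 := (Real.rpow_pos_of_pos hq _).ne'
        have a4 : (1 - α) ≠ 0 := by linarith
        unfold critical
        rw [← hp, Real.div_rpow hp0.le hq.le, a2, mul_pow, ht2]
        calc 2 / (1 - α) * (p ^ p / (2 - 2 * α) ^ p) *
              (p ^ (2 * α) * ((2 - 2 * α) * (2 - 2 * α) ^ (1 - 2 * α)))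
            = 2 / (1 - α) * (2 - 2 * α) * (p ^ (1 - 2 * α) * p ^ (2 * α)) *
              ((2 - 2 * α) ^ (1 - 2 * α) / (2 - 2 * α) ^ (1 - 2 * α)) := by
              rw [← hp]; ring
          _ = 2 / (1 - α) * (2 - 2 * α) * p := by rw [a1, div_self a3, mul_one]
          _ = 2 ^ 2 * p := by field_simp
      rw [← e4]
      exact mul_lt_mul_of_pos_right hcr hK
    · subst heq
      rw [critical_half, hC4] at hcr
      have e1 : (2 : ℝ) * (1 / 2) = 1 := by norm_num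
      have e2 : (2 : ℝ) * (1 - 1 / 2) = 1 := by norm_num
      rw [e1] at hcr
      rw [e1, e2]
      simp only [Real.rpow_one] at hcr ⊢
      have hC2 : C < 2 := by nlinarith
      -- choose `t` with `C² (1 + t²) < 4`
      set t := (2 - C) / 2 with ht
      have ht0 : 0 < t := by rw [ht]; linarith
      refine ⟨t, ht0, ?_⟩
      have h5 : C * Real.sqrt (1 + t ^ 2) < 2 := by
        apply lt_of_pow_lt_pow_left₀ 2 (by norm_num)
        rw [mul_pow, Real.sq_sqrt (by positivity)]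
        have e : (2 : ℝ) ^ 2 - C ^ 2 * (1 + t ^ 2) =
            (2 - C) * ((2 + C) - C ^ 2 * (2 - C) / 4) := by rw [ht]; ring
        have h6 : 0 < (2 - C) * ((2 + C) - C ^ 2 * (2 - C) / 4) := by
          apply mul_pos (by linarith)
          nlinarith [mul_pos hC hC]
        linarith
      calc C * t * Real.sqrt (1 + t ^ 2) = (C * Real.sqrt (1 + t ^ 2)) * t := by ring
        _ < 2 * t := mul_lt_mul_of_pos_right h5 ht0

end Pool.Agent.Lib.MP_89e789_an
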